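import Mathlib
open MeasureTheory Set Filter Topology
open scoped ENNReal
namespace StarKP

/-- the Bernstein operator applied to `x^p`: `Σ_m C(k,m) θ^m (1-θ)^{k-m} (m/k)^p` -/
noncomputable def bern (p : ℝ) (k : ℕ) (θ : ℝ) : ℝ :=
  ∑ m ∈ Finset.range (k + 1), (k.choose m : ℝ) * θ ^ m * (1 - θ) ^ (k - m) * ((m : ℝ) / k) ^ p

theorem bern_nonneg (p : ℝ) (k : ℕ) (θ : ℝ) (h0 : 0 ≤ θ) (h1 : θ ≤ 1) : 0 ≤ bern p k θ := by
  unfold bern
  refine Finset.sum_nonneg fun m _ => ?_
  have h2 : 0 ≤ 1 - θ := by linarith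
  have h3 : 0 ≤ ((m : ℝ) / k) ^ p := Real.rpow_nonneg (by positivity) _
  positivity

theorem bern_le_one (p : ℝ) (hp : 0 ≤ p) (k : ℕ) (θ : ℝ) (h0 : 0 ≤ θ) (h1 : θ ≤ 1) :
    bern p k θ ≤ 1 := by
  unfold bern
  have h2 : 0 ≤ 1 - θ := by linarith
  have h4 : ∑ m ∈ Finset.range (k + 1), (k.choose m : ℝ) * θ ^ m * (1 - θ) ^ (k - m) = 1 := by
    have h5 := add_pow θ (1 - θ) k
    rw [add_sub_cancel, one_pow] at h5
    refine Eq.trans ?_ h5.symm
    refine Finset.sum_congr rfl fun m _ => ?_
    ring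
  refine le_trans (Finset.sum_le_sum fun m hm => ?_) h4.le
  rw [Finset.mem_range] at hm
  have h3 : ((m : ℝ) / k) ^ p ≤ 1 := by
    refine Real.rpow_le_one (by positivity) ?_ hp
    refine div_le_one_of_le₀ ?_ (Nat.cast_nonneg _)
    have : m ≤ k := by omega
    exact_mod_cast this
  exact mul_le_of_le_one_right (by positivity) h3

theorem bern_tendsto (p : ℝ) (hp : 0 < p) (θ : ℝ) (h0 : 0 ≤ θ) (h1 : θ ≤ 1) :
    Tendsto (fun k => bern p k θ) atTop (𝓝 (θ ^ p)) := by
  let f : C(unitInterval, ℝ) := ⟨fun x => (x : ℝ) ^ p, by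
    exact (Real.continuous_rpow_const hp.le).comp continuous_subtype_val⟩
  have h := bernsteinApproximation_uniform f
  have h2 : Tendsto (fun n => bernsteinApproximation n f ⟨θ, h0, h1⟩) atTop (𝓝 (f ⟨θ, h0, h1⟩)) :=
    ((continuous_eval_const (⟨θ, h0, h1⟩ : unitInterval)).tendsto f).comp h
  have h3 : ∀ n, bernsteinApproximation n f ⟨θ, h0, h1⟩ = bern p n θ := by
    intro n
    rw [bernsteinApproximation.apply]
    unfold bern
    rw [Finset.sum_range]
    refine Finset.sum_congr rfl fun m _ => ?_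
    rw [bernstein_apply, smul_eq_mul]
    rfl
  rw [show (fun k => bern p k θ) = fun n => bernsteinApproximation n f ⟨θ, h0, h1⟩ from
    funext fun n => (h3 n).symm]
  exact h2

open Classical in
/-- law of the number of coordinates in `A` under a product probability measure -/
theorem binom_law {Ω : Type} [MeasurableSpace Ω] (ν : Measure Ω) [IsProbabilityMeasure ν]
    (A : Set Ω) (hA : MeasurableSet A) (p : ℝ) (k : ℕ) :
    ∫⁻ ω : Fin k → Ω, ENNReal.ofReal
        ((((Finset.univ.filter (fun j => ω j ∈ A)).card : ℝ) / k) ^ p)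
      ∂(Measure.pi fun _ => ν) = ENNReal.ofReal (bern p k (ν A).toReal) := by
  set θ := (ν A).toReal with hθ
  have hθ0 : 0 ≤ θ := ENNReal.toReal_nonneg
  have hθ1 : θ ≤ 1 := by
    have h1 : ν A ≤ 1 := prob_le_one
    have h2 := ENNReal.toReal_mono ENNReal.one_ne_top h1
    rwa [ENNReal.toReal_one] at h2
  have hA1 : ν A = ENNReal.ofReal θ := (ENNReal.ofReal_toReal (measure_ne_top ν A)).symm
  have hA2 : ν Aᶜ = ENNReal.ofReal (1 - θ) := by
    rw [prob_compl_eq_one_sub hA, hA1, ENNReal.ofReal_sub _ hθ0, ENNReal.ofReal_one]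
  set f : ℕ → ℝ := fun m => ((m : ℝ) / k) ^ p with hf
  have hf0 : ∀ m, 0 ≤ f m := fun m => Real.rpow_nonneg (by positivity) _
  set S : Finset (Fin k) → Set (Fin k → Ω) := fun B =>
    Set.pi Set.univ (fun j => if j ∈ B then A else Aᶜ) with hS
  have hSm : ∀ B, MeasurableSet (S B) := by
    intro B
    refine MeasurableSet.univ_pi fun j => ?_
    split_ifs
    · exact hA
    · exact hA.compl
  have hSiff : ∀ (B : Finset (Fin k)) (ω : Fin k → Ω),
      ω ∈ S B ↔ Finset.univ.filter (fun j => ω j ∈ A) = B := by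
    intro B ω
    rw [hS]
    simp only [Set.mem_pi, Set.mem_univ, true_implies]
    constructor
    · intro h
      ext j
      rw [Finset.mem_filter]
      have h1 := h j
      by_cases hj : j ∈ B
      · rw [if_pos hj] at h1
        simp [hj, h1]
      · rw [if_neg hj] at h1
        simp only [Finset.mem_univ, true_and, hj, iff_false]
        exact h1
    · intro h j
      rw [← h]
      by_cases hj : ω j ∈ A
      · simp [hj]
      · simp [hj]
  have hSν : ∀ B : Finset (Fin k), (Measure.pi fun _ : Fin k => ν) (S B) =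
      ENNReal.ofReal (θ ^ B.card * (1 - θ) ^ (k - B.card)) := by
    intro B
    rw [hS]
    simp only
    rw [Measure.pi_pi]
    have h1 : ∀ j : Fin k, ν (if j ∈ B then A else Aᶜ) =
        if j ∈ B then ENNReal.ofReal θ else ENNReal.ofReal (1 - θ) := by
      intro j
      split_ifs
      · exact hA1
      · exact hA2
    rw [Finset.prod_congr rfl fun j _ => h1 j, Finset.prod_ite, Finset.prod_const, Finset.prod_const]
    have h2 : (Finset.univ.filter (fun j => j ∈ B)).card = B.card := by
      congr 1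
      ext j
      simp
    have h3 : (Finset.univ.filter (fun j => ¬ j ∈ B)).card = k - B.card := by
      have h4 := Finset.card_filter_add_card_filter_not (s := (Finset.univ : Finset (Fin k)))
        (fun j => j ∈ B)
      rw [h2, Finset.card_univ, Fintype.card_fin] at h4
      omega
    rw [h2, h3, ENNReal.ofReal_mul (by positivity), ENNReal.ofReal_pow hθ0,
      ENNReal.ofReal_pow (by linarith)]
  have hint : ∀ ω : Fin k → Ω, ENNReal.ofReal
      ((((Finset.univ.filter (fun j => ω j ∈ A)).card : ℝ) / k) ^ p) =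
      ∑ B : Finset (Fin k), (S B).indicator (fun _ => ENNReal.ofReal (f B.card)) ω := by
    intro ω
    rw [Finset.sum_eq_single (Finset.univ.filter (fun j => ω j ∈ A))]
    · rw [Set.indicator_of_mem]
      rw [hSiff]
    · intro B _ hB
      rw [Set.indicator_of_notMem]
      rw [hSiff]
      exact fun h => hB h.symm
    · intro h
      exact absurd (Finset.mem_univ _) h
  rw [lintegral_congr hint, lintegral_finsetSum _ fun B _ => measurable_const.indicator (hSm B)]
  have hterm : ∀ B : Finset (Fin k), ∫⁻ ω, (S B).indicator (fun _ => ENNReal.ofReal (f B.card)) ω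
      ∂(Measure.pi fun _ : Fin k => ν) =
      ENNReal.ofReal (f B.card * (θ ^ B.card * (1 - θ) ^ (k - B.card))) := by
    intro B
    rw [lintegral_indicator_const (hSm B), hSν, ← ENNReal.ofReal_mul (hf0 _)]
  have h1θ : 0 ≤ 1 - θ := by linarith
  rw [Finset.sum_congr rfl fun B _ => hterm B, ← ENNReal.ofReal_sum_of_nonneg
    fun B _ => mul_nonneg (hf0 _) (by positivity)]
  congr 1
  have h5 := Finset.sum_powerset_apply_card (fun m => f m * (θ ^ m * (1 - θ) ^ (k - m)))
    (x := (Finset.univ : Finset (Fin k)))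
  rw [Finset.powerset_univ, Finset.card_univ, Fintype.card_fin] at h5
  rw [h5]
  unfold bern
  refine Finset.sum_congr rfl fun m _ => ?_
  rw [nsmul_eq_mul]
  ring
end StarKP
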