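import Pool.Agent.StarKP.Def
open MeasureTheory Set Matrix
namespace StarKP

/-- iterated differences of `x^q` -/
noncomputable def powHF_S : ℕ → ℝ → ℝ → ℝ
  | 0, q, x => x ^ q
  | s + 1, q, x => powHF_S s q (x + 1) - powHF_S s q x

theorem powHF_S_zero (q x : ℝ) : powHF_S 0 q x = x ^ q := rfl

theorem powHF_S_succ (s : ℕ) (q x : ℝ) :
    powHF_S (s + 1) q x = powHF_S s q (x + 1) - powHF_S s q x := rfl

theorem powHF_iter (s : ℕ) (q x : ℝ) :
    powHF_S s q x = ((fwdDiff (1 : ℝ))^[s] fun x : ℝ => x ^ q) x := by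
  induction s generalizing x with
  | zero => rfl
  | succ s ih =>
    rw [powHF_S_succ, ih, ih, Function.iterate_succ_apply']
    rfl

theorem powHF_cont (s : ℕ) {q : ℝ} (hq : 0 ≤ q) : Continuous (powHF_S s q) := by
  induction s with
  | zero => exact Real.continuous_rpow_const hq
  | succ s ih => exact (ih.comp (continuous_id.add continuous_const)).sub ih

theorem powHF_deriv (s : ℕ) (q : ℝ) {x : ℝ} (hx : 0 < x) :
    HasDerivAt (powHF_S s q) (q * powHF_S s (q - 1) x) x := by
  induction s generalizing x with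
  | zero => exact Real.hasDerivAt_rpow_const (Or.inl hx.ne')
  | succ s ih =>
    have h1 : HasDerivAt (fun y : ℝ => powHF_S s q (y + 1)) (q * powHF_S s (q - 1) (x + 1)) x := by
      have h2 := (ih (x := x + 1) (by linarith)).comp_add_const x 1
      exact h2
    have h3 := h1.sub (ih hx)
    rw [powHF_S_succ, mul_sub]
    exact h3

theorem powHF_nonneg (s : ℕ) : ∀ q : ℝ, (s : ℝ) - 1 < q → ∀ x : ℝ, 0 ≤ x →
    0 ≤ powHF_S s q x := by
  induction s with
  | zero =>
    intro q _ x hx
    exact Real.rpow_nonneg hx q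
  | succ s ih =>
    intro q hq x hx
    push_cast at hq
    have hq0 : (0 : ℝ) ≤ q := by
      have : (0 : ℝ) ≤ s := Nat.cast_nonneg s
      linarith
    have hmono : MonotoneOn (powHF_S s q) (Ici 0) := by
      apply monotoneOn_of_deriv_nonneg (convex_Ici 0) (powHF_cont s hq0).continuousOn
      · intro y hy
        rw [interior_Ici] at hy
        exact (powHF_deriv s q hy).differentiableAt.differentiableWithinAt
      · intro y hy
        rw [interior_Ici] at hy
        rw [(powHF_deriv s q hy).deriv]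
        exact mul_nonneg hq0 (ih (q - 1) (by linarith) y (le_of_lt hy))
    rw [powHF_S_succ, sub_nonneg]
    exact hmono hx (show (0 : ℝ) ≤ x + 1 by linarith) (by linarith)

/-- the set function `q |A|^p` has nonnegative differences of order `1, …, d+1` if `p > d` -/
theorem pow_HF (d k : ℕ) (p : ℝ) (hp : (d : ℝ) < p) (q : ℝ) (hq : 0 ≤ q) :
    HF d (fun A : Finset (Fin k) => q * (A.card : ℝ) ^ p) := by
  intro T B hT hTd hTB
  have h1 : ∑ A ∈ T.powerset, (-1 : ℝ) ^ (T \ A).card * (q * ((A ∪ B).card : ℝ) ^ p) =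
      ∑ A ∈ T.powerset, (fun m : ℕ => (-1 : ℝ) ^ (T.card - m) *
        (q * ((m + B.card : ℕ) : ℝ) ^ p)) A.card := by
    apply Finset.sum_congr rfl
    intro A hA
    rw [Finset.mem_powerset] at hA
    rw [Finset.card_sdiff_of_subset hA, Finset.card_union_of_disjoint (hTB.mono_left hA)]
  have h2 : ∑ A ∈ T.powerset, (-1 : ℝ) ^ (T \ A).card * (q * ((A ∪ B).card : ℝ) ^ p) =
      q * powHF_S T.card p (B.card : ℝ) := by
    rw [h1, Finset.sum_powerset_apply_card (fun m : ℕ => (-1 : ℝ) ^ (T.card - m) *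
        (q * ((m + B.card : ℕ) : ℝ) ^ p)), powHF_iter, fwdDiff_iter_eq_sum_shift,
      Finset.mul_sum]
    apply Finset.sum_congr rfl
    intro m _
    rw [nsmul_eq_mul, zsmul_eq_mul]
    push_cast
    rw [nsmul_eq_mul, mul_one, add_comm (B.card : ℝ) (m : ℝ)]
    ring
  change 0 ≤ ∑ A ∈ T.powerset, (-1 : ℝ) ^ (T \ A).card * (q * ((A ∪ B).card : ℝ) ^ p)
  rw [h2]
  apply mul_nonneg hq
  apply powHF_nonneg _ _ _ _ (Nat.cast_nonneg _)
  have h3 : (T.card : ℝ) ≤ d + 1 := by exact_mod_cast hTd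
  linarith

end StarKP
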