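import Pool.Agent.StarKP.SlabAnti
import Pool.Agent.StarKP.PowHF
import Pool.Agent.StarKP.Binom
import Pool.Agent.StarIB.WtMix

/-! # Module F: the rearrangement inequality `RI d p` for every real `p > d` -/

open MeasureTheory Set Matrix Filter Topology
open scoped ENNReal RealInnerProductSpace
namespace StarKP

open Classical in
theorem RIReal_card_meas {X : Type*} [MeasurableSpace X] {k : ℕ} (S : Fin k → Set X)
    (hS : ∀ j, MeasurableSet (S j)) :
    Measurable (fun x => ((Finset.univ.filter (fun j => x ∈ S j)).card : ℝ)) := by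
  simp_rw [Finset.card_filter]
  push_cast
  apply Finset.measurable_sum
  intro j _
  exact Measurable.ite (hS j) measurable_const measurable_const

open Classical in
theorem RIReal_fin {d k : ℕ} (a : Fin k → Fin d → ℝ) (c h : Fin k → ℝ) (r : Fin d → ℝ) (p : ℝ)
    (hp : (d : ℝ) < p) (lam : ℝ) (h0 : 0 ≤ lam) (h1 : lam ≤ 1) :
    ∫⁻ y in {y : Fin d → ℝ | ∀ l, |y l| < r l}, ENNReal.ofReal
      ((((Finset.univ.filter (fun j => |a j ⬝ᵥ y - 1 * c j| < h j)).card : ℝ) / k) ^ p) ≤
    ∫⁻ y in {y : Fin d → ℝ | ∀ l, |y l| < r l}, ENNReal.ofReal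
      ((((Finset.univ.filter (fun j => |a j ⬝ᵥ y - lam * c j| < h j)).card : ℝ) / k) ^ p) := by
  have hp0 : 0 < p := lt_of_le_of_lt (Nat.cast_nonneg d) hp
  set K : Set (Fin d → ℝ) := {y : Fin d → ℝ | ∀ l, |y l| < r l} with hK
  have hbd : volume K < ∞ := by
    have : K ⊆ univ.pi (fun l => Icc (-r l) (r l)) := by
      intro y hy l _
      exact abs_le.1 (hy l).le
    refine lt_of_le_of_lt (measure_mono this) ?_
    rw [volume_pi_pi]
    exact ENNReal.prod_lt_top (fun l _ => by rw [Real.volume_Icc]; exact ENNReal.ofReal_lt_top)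
  have hSm : ∀ s j, MeasurableSet {y : Fin d → ℝ | |a j ⬝ᵥ y - s * c j| < h j} := by
    intro s j
    apply measurableSet_lt _ measurable_const
    apply Measurable.abs
    apply Measurable.sub _ measurable_const
    unfold dotProduct
    fun_prop
  have hmeas : ∀ s, Measurable (fun y : Fin d → ℝ =>
      (((Finset.univ.filter (fun j => |a j ⬝ᵥ y - s * c j| < h j)).card : ℝ) / k) ^ p) := by
    intro s
    exact ((RIReal_card_meas (fun j => {y : Fin d → ℝ | |a j ⬝ᵥ y - s * c j| < h j})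
      (hSm s)).div_const _).pow_const _
  have hle : ∀ s (y : Fin d → ℝ),
      (((Finset.univ.filter (fun j => |a j ⬝ᵥ y - s * c j| < h j)).card : ℝ) / k) ^ p ≤ 1 := by
    intro s y
    apply Real.rpow_le_one (by positivity) _ hp0.le
    apply div_le_one_of_le₀ _ (by positivity)
    exact_mod_cast (Finset.card_filter_le _ _).trans (by simp)
  have hfin : ∀ s, ∫⁻ y in K, ENNReal.ofReal
      ((((Finset.univ.filter (fun j => |a j ⬝ᵥ y - s * c j| < h j)).card : ℝ) / k) ^ p) ≠ ∞ := by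
    intro s
    apply ne_top_of_le_ne_top (b := ∫⁻ y in K, 1)
    · rw [lintegral_const, Measure.restrict_apply_univ, one_mul]; exact hbd.ne
    · apply lintegral_mono
      intro y
      show ENNReal.ofReal _ ≤ (1 : ℝ≥0∞)
      rw [ENNReal.ofReal_le_one]
      exact hle s y
  have hconv : ∀ s, (∫⁻ y in K, ENNReal.ofReal
      ((((Finset.univ.filter (fun j => |a j ⬝ᵥ y - s * c j| < h j)).card : ℝ) / k) ^ p)).toReal =
      ∫ y in K, (fun A : Finset (Fin k) => ((k : ℝ) ^ p)⁻¹ * (A.card : ℝ) ^ p)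
        (Finset.univ.filter (fun j => |a j ⬝ᵥ y - s * c j| < h j)) := by
    intro s
    rw [integral_eq_lintegral_of_nonneg_ae]
    · congr 1
      apply lintegral_congr
      intro y
      congr 1
      rw [Real.div_rpow (by positivity) (by positivity), div_eq_inv_mul]
    · exact Eventually.of_forall (fun y => by positivity)
    · have := hmeas s
      have e : (fun y : Fin d → ℝ => (fun A : Finset (Fin k) => ((k : ℝ) ^ p)⁻¹ * (A.card : ℝ) ^ p)
        (Finset.univ.filter (fun j => |a j ⬝ᵥ y - s * c j| < h j))) = fun y : Fin d → ℝ =>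
      (((Finset.univ.filter (fun j => |a j ⬝ᵥ y - s * c j| < h j)).card : ℝ) / k) ^ p := by
        funext y
        rw [Real.div_rpow (by positivity) (by positivity), div_eq_inv_mul]
      rw [e]
      exact this.aestronglyMeasurable
  have hmain := slab_anti a c h r (fun A : Finset (Fin k) => ((k : ℝ) ^ p)⁻¹ * (A.card : ℝ) ^ p)
    (pow_HF d k p hp _ (by positivity)) (show lam ∈ Ici (0 : ℝ) from h0)
    (show (1 : ℝ) ∈ Ici (0 : ℝ) by simp) h1
  simp only at hmain
  rw [← ENNReal.toReal_le_toReal (hfin 1) (hfin lam), hconv, hconv]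
  exact hmain

section Assembly

variable {d : ℕ} {Ω : Type} [MeasurableSpace Ω] (a : Ω → EuclideanSpace ℝ (Fin d)) (c h : Ω → ℝ)

/-- set of the slabs containing `y` -/
def SSd (lam : ℝ) (y : EuclideanSpace ℝ (Fin d)) : Set Ω := {ω | |⟪a ω, y⟫ - lam * c ω| < h ω}

/-- centered box -/
def Bxd (r : Fin d → ℝ) : Set (EuclideanSpace ℝ (Fin d)) := {y | ∀ k, |y k| < r k}

theorem Bxd_meas (r : Fin d → ℝ) : MeasurableSet (Bxd r) := by
  have : Bxd r = ⋂ k, {y : EuclideanSpace ℝ (Fin d) | |y k| < r k} := by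
    ext y; simp [Bxd]
  rw [this]
  exact MeasurableSet.iInter fun k => measurableSet_lt (by fun_prop) measurable_const

theorem SSd_joint (ha : Measurable a) (hc : Measurable c) (hh : Measurable h) (lam : ℝ) :
    MeasurableSet {q : EuclideanSpace ℝ (Fin d) × Ω | q.2 ∈ SSd a c h lam q.1} := by
  show MeasurableSet {q : EuclideanSpace ℝ (Fin d) × Ω | |⟪a q.2, q.1⟫ - lam * c q.2| < h q.2}
  apply measurableSet_lt
  · have : Measurable (fun q : EuclideanSpace ℝ (Fin d) × Ω => (⟪a q.2, q.1⟫ : ℝ)) :=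
      (ha.comp measurable_snd).inner measurable_fst
    exact (this.sub ((hc.comp measurable_snd).const_mul lam)).abs
  · exact hh.comp measurable_snd

open Classical in
/-- the normalised `p`-th moment for `k` independent slabs -/
noncomputable def LLd (ν : Measure Ω) (p : ℝ) (k : ℕ) (lam : ℝ) (y : EuclideanSpace ℝ (Fin d)) :
    ℝ≥0∞ :=
  ∫⁻ ω : Fin k → Ω, ENNReal.ofReal
    ((((Finset.univ.filter (fun j => ω j ∈ SSd a c h lam y)).card : ℝ) / k) ^ p)
      ∂(Measure.pi fun _ => ν)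

open Classical in
theorem jointd_meas (ha : Measurable a) (hc : Measurable c) (hh : Measurable h) (p : ℝ) (k : ℕ)
    (lam : ℝ) :
    Measurable (fun q : EuclideanSpace ℝ (Fin d) × (Fin k → Ω) => ENNReal.ofReal
      ((((Finset.univ.filter (fun j => q.2 j ∈ SSd a c h lam q.1)).card : ℝ) / k) ^ p)) := by
  apply ENNReal.measurable_ofReal.comp
  refine ((RIReal_card_meas (fun j : Fin k => {q : EuclideanSpace ℝ (Fin d) × (Fin k → Ω) |
    q.2 j ∈ SSd a c h lam q.1}) ?_).div_const _).pow_const _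
  intro j
  have h1 : Measurable (fun q : EuclideanSpace ℝ (Fin d) × (Fin k → Ω) => (q.1, q.2 j)) :=
    measurable_fst.prodMk ((measurable_pi_apply j).comp measurable_snd)
  exact h1 (SSd_joint a c h ha hc hh lam)

theorem LLd_anti (ν : Measure Ω) [IsProbabilityMeasure ν] (ha : Measurable a) (hc : Measurable c)
    (hh : Measurable h) (p : ℝ) (hp : (d : ℝ) < p) (k : ℕ) (r : Fin d → ℝ) (lam : ℝ)
    (h0 : 0 ≤ lam) (h1 : lam ≤ 1) :
    ∫⁻ y in Bxd r, LLd a c h ν p k 1 y ≤ ∫⁻ y in Bxd r, LLd a c h ν p k lam y := by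
  classical
  have hswap : ∀ lam, ∫⁻ y in Bxd r, LLd a c h ν p k lam y =
      ∫⁻ ω : Fin k → Ω, (∫⁻ y in Bxd r, ENNReal.ofReal
        ((((Finset.univ.filter (fun j => ω j ∈ SSd a c h lam y)).card : ℝ) / k) ^ p))
        ∂(Measure.pi fun _ => ν) := by
    intro lam
    unfold LLd
    exact lintegral_lintegral_swap (jointd_meas a c h ha hc hh p k lam).aemeasurable
  rw [hswap, hswap]
  apply lintegral_mono
  intro ω
  have hconv : ∀ lam, ∫⁻ y in Bxd r, ENNReal.ofReal
        ((((Finset.univ.filter (fun j => ω j ∈ SSd a c h lam y)).card : ℝ) / k) ^ p) =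
      ∫⁻ y in {y : Fin d → ℝ | ∀ l, |y l| < r l}, ENNReal.ofReal
        ((((Finset.univ.filter (fun j => |(fun l => a (ω j) l) ⬝ᵥ y - lam * c (ω j)| <
          h (ω j))).card : ℝ) / k) ^ p) := by
    intro lam
    have hmp := EuclideanSpace.volume_preserving_symm_measurableEquiv_toLp (Fin d)
    rw [← hmp.setLIntegral_comp_preimage_emb (MeasurableEquiv.measurableEmbedding _)]
    have e1 : ((MeasurableEquiv.toLp 2 (Fin d → ℝ)).symm ⁻¹' {y : Fin d → ℝ | ∀ l, |y l| < r l}) =
        Bxd r := rfl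
    rw [e1]
    apply lintegral_congr
    intro y
    congr 5
    ext j
    simp only [Finset.mem_filter, Finset.mem_univ, true_and, SSd, mem_ofPred_eq]
    rw [PiLp.inner_apply]
    have e2 : ∀ l, (MeasurableEquiv.toLp 2 (Fin d → ℝ)).symm y l = y l := fun l => rfl
    simp only [RCLike.inner_apply, conj_trivial, dotProduct, e2, mul_comm]
  show ∫⁻ y in Bxd r, ENNReal.ofReal
        ((((Finset.univ.filter (fun j => ω j ∈ SSd a c h 1 y)).card : ℝ) / k) ^ p) ≤
      ∫⁻ y in Bxd r, ENNReal.ofReal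
        ((((Finset.univ.filter (fun j => ω j ∈ SSd a c h lam y)).card : ℝ) / k) ^ p)
  rw [hconv, hconv]
  exact RIReal_fin (fun j l => a (ω j) l) (fun j => c (ω j)) (fun j => h (ω j)) r p hp lam h0 h1

theorem Bxd_vol (r : Fin d → ℝ) : volume (Bxd r) < ∞ := by
  have hmp := EuclideanSpace.volume_preserving_symm_measurableEquiv_toLp (Fin d)
  have e1 : ((MeasurableEquiv.toLp 2 (Fin d → ℝ)).symm ⁻¹' {y : Fin d → ℝ | ∀ l, |y l| < r l}) =
        Bxd r := rfl
  rw [← e1, hmp.measure_preimage_emb (MeasurableEquiv.measurableEmbedding _)]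
  have : {y : Fin d → ℝ | ∀ l, |y l| < r l} ⊆ univ.pi (fun l => Icc (-r l) (r l)) := by
    intro y hy l _
    exact abs_le.1 (hy l).le
  refine lt_of_le_of_lt (measure_mono this) ?_
  rw [volume_pi_pi]
  exact ENNReal.prod_lt_top (fun l _ => by rw [Real.volume_Icc]; exact ENNReal.ofReal_lt_top)

theorem boxd_ineq (ν : Measure Ω) [IsProbabilityMeasure ν] (ha : Measurable a) (hc : Measurable c)
    (hh : Measurable h) (p : ℝ) (hp : (d : ℝ) < p) (r : Fin d → ℝ) (lam : ℝ)
    (h0 : 0 ≤ lam) (h1 : lam ≤ 1) :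
    ∫⁻ y in Bxd r, (ν (SSd a c h 1 y)) ^ p ≤ ∫⁻ y in Bxd r, (ν (SSd a c h lam y)) ^ p := by
  have hp0 : 0 < p := lt_of_le_of_lt (Nat.cast_nonneg d) hp
  have hSm : ∀ lam y, MeasurableSet (SSd a c h lam y) := fun lam y =>
    measurable_prodMk_left (SSd_joint a c h ha hc hh lam)
  have hθ : ∀ lam y, 0 ≤ (ν (SSd a c h lam y)).toReal ∧ (ν (SSd a c h lam y)).toReal ≤ 1 :=
    fun lam y => ⟨ENNReal.toReal_nonneg,
      ENNReal.toReal_le_of_le_ofReal (by norm_num) (by simpa using prob_le_one)⟩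
  have hlim : ∀ lam, Tendsto (fun k => ∫⁻ y in Bxd r, LLd a c h ν p k lam y) atTop
      (𝓝 (∫⁻ y in Bxd r, (ν (SSd a c h lam y)) ^ p)) := by
    intro lam
    apply tendsto_lintegral_of_dominated_convergence (fun _ => (1 : ℝ≥0∞))
    · intro k
      exact (jointd_meas a c h ha hc hh p k lam).lintegral_prod_right'
    · intro k
      filter_upwards with y
      unfold LLd
      rw [binom_law ν _ (hSm lam y) p k, ENNReal.ofReal_le_one]
      exact bern_le_one p hp0.le k _ (hθ lam y).1 (hθ lam y).2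
    · rw [lintegral_const, Measure.restrict_apply_univ, one_mul]
      exact (Bxd_vol r).ne
    · filter_upwards with y
      have e : ∀ k, LLd a c h ν p k lam y = ENNReal.ofReal (bern p k (ν (SSd a c h lam y)).toReal) :=
        fun k => binom_law ν _ (hSm lam y) p k
      simp_rw [e]
      have e2 : (ν (SSd a c h lam y)) ^ p =
          ENNReal.ofReal ((ν (SSd a c h lam y)).toReal ^ p) := by
        rw [← ENNReal.ofReal_rpow_of_nonneg (hθ lam y).1 hp0.le,
          ENNReal.ofReal_toReal (measure_ne_top ν _)]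
      rw [e2]
      exact (ENNReal.continuous_ofReal.tendsto _).comp
        (bern_tendsto p hp0 _ (hθ lam y).1 (hθ lam y).2)
  exact le_of_tendsto_of_tendsto' (hlim 1) (hlim lam)
    (fun k => LLd_anti a c h ν ha hc hh p hp k r lam h0 h1)

end Assembly

theorem RI_real (d : ℕ) (p : ℝ) (hp : (d : ℝ) < p) : StarIB.RI d p := by
  have hp0 : 0 < p := lt_of_le_of_lt (Nat.cast_nonneg d) hp
  intro s hs Ω _ μ _ a c h ha hc hh lam h0 h1
  obtain ⟨Ξ, _, νΞ, _, r, hr, hW⟩ := StarIB.Wt_mix d s hs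
  -- mixture of boxes
  have hB : MeasurableSet {q : EuclideanSpace ℝ (Fin d) × Ξ | ∀ k, |q.1 k| < r q.2 k} := by
    have : {q : EuclideanSpace ℝ (Fin d) × Ξ | ∀ k, |q.1 k| < r q.2 k} =
        ⋂ k, {q : EuclideanSpace ℝ (Fin d) × Ξ | |q.1 k| < r q.2 k} := by
      ext q; simp
    rw [this]
    refine MeasurableSet.iInter fun k => measurableSet_lt (by fun_prop) ?_
    exact (measurable_pi_apply k).comp (hr.comp measurable_snd)
  have hmix : ∀ f : EuclideanSpace ℝ (Fin d) → ℝ≥0∞, Measurable f →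
      ∫⁻ y, f y * StarIB.Wt d s y = ∫⁻ ξ, (∫⁻ y in Bxd (r ξ), f y) ∂νΞ := by
    intro f hf
    have e1 : ∀ y, f y * StarIB.Wt d s y = ∫⁻ ξ, {q : EuclideanSpace ℝ (Fin d) × Ξ |
        ∀ k, |q.1 k| < r q.2 k}.indicator (fun q => f q.1) (y, ξ) ∂νΞ := by
      intro y
      have e2 : ∀ ξ, {q : EuclideanSpace ℝ (Fin d) × Ξ | ∀ k, |q.1 k| < r q.2 k}.indicator
          (fun q => f q.1) (y, ξ) = {ξ | ∀ k, |y k| < r ξ k}.indicator (fun _ => f y) ξ := by
        intro ξ
        simp only [indicator_apply, mem_ofPred_eq]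
      simp_rw [e2]
      have e5 : MeasurableSet {ξ | ∀ k, |y k| < r ξ k} := measurable_prodMk_left hB
      rw [lintegral_indicator e5, lintegral_const, Measure.restrict_apply_univ, hW]
    simp_rw [e1]
    rw [lintegral_lintegral_swap]
    · apply lintegral_congr
      intro ξ
      rw [← lintegral_indicator (Bxd_meas _)]
      apply lintegral_congr
      intro y
      simp only [indicator_apply, mem_ofPred_eq, Bxd]
    · exact ((hf.comp measurable_fst).indicator hB).aemeasurable
  have hSS : ∀ lam, Measurable (fun y => μ (SSd a c h lam y)) := fun lam =>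
    measurable_measure_prodMk_left (SSd_joint a c h ha hc hh lam)
  have e0 : ∀ y, μ {ω | |⟪a ω, y⟫ - c ω| < h ω} = μ (SSd a c h 1 y) := by
    intro y; simp [SSd]
  have e00 : ∀ y, μ {ω | |⟪a ω, y⟫ - lam * c ω| < h ω} = μ (SSd a c h lam y) := fun y => rfl
  simp_rw [e0, e00]
  rw [hmix _ ((hSS 1).pow_const p), hmix _ ((hSS lam).pow_const p)]
  apply lintegral_mono
  intro ξ
  show ∫⁻ y in Bxd (r ξ), μ (SSd a c h 1 y) ^ p ≤ ∫⁻ y in Bxd (r ξ), μ (SSd a c h lam y) ^ p
  by_cases hμ : μ = 0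
  · rw [hμ]
    simp [hp0]
  · set m := μ univ with hm
    have hm0 : m ≠ 0 := by rw [hm]; simpa using hμ
    have hmt : m ≠ ∞ := measure_ne_top μ univ
    set ν : Measure Ω := m⁻¹ • μ with hν
    have hprob : IsProbabilityMeasure ν := by
      constructor
      rw [hν, Measure.smul_apply, ← hm, smul_eq_mul, ENNReal.inv_mul_cancel hm0 hmt]
    have e3 : ∀ A : Set Ω, μ A = m * ν A := by
      intro A
      rw [hν, Measure.smul_apply, smul_eq_mul, ← mul_assoc, ENNReal.mul_inv_cancel hm0 hmt,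
        one_mul]
    have hνS : ∀ lam, Measurable (fun y => ν (SSd a c h lam y)) := fun lam =>
      measurable_measure_prodMk_left (SSd_joint a c h ha hc hh lam)
    simp_rw [e3, ENNReal.mul_rpow_of_nonneg _ _ hp0.le]
    rw [lintegral_const_mul _ ((hνS 1).pow_const p), lintegral_const_mul _ ((hνS lam).pow_const p)]
    exact mul_le_mul' le_rfl (boxd_ineq a c h ν ha hc hh p hp (r ξ) lam h0 h1)

end StarKP
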