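import Mathlib

/-!
# A Kneser–Poulsen type inequality for slabs: definitions

For finitely many slabs `S_j(s) = {y ∈ ℝ^d : |a_j·y - s c_j| < h_j}` and a centered box `K`, the
integral over `K` of `F({j : y ∈ S_j(s)})` is nonincreasing in `s ≥ 0` for every set function `F`
all of whose differences of order `1, …, d+1` are nonnegative.
-/

open MeasureTheory Set Matrix

namespace StarKP

/-- the Gram matrix `Σ_j w_j v_j v_jᵀ` -/
noncomputable def gram {D J : Type} [Fintype J] (w : J → ℝ) (v : J → D → ℝ) : Matrix D D ℝ :=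
  Matrix.of fun p q => ∑ j, w j * v j p * v j q

/-- the lifted vectors `v_j = (a_j, c_j)` -/
def lft {d : ℕ} {J : Type} (a : J → Fin d → ℝ) (c : J → ℝ) (j : J) : Fin d ⊕ Unit → ℝ :=
  Sum.elim (a j) (fun _ => c j)

/-- the quadratic exponent `Σ_j w_j (a_j·y - s c_j)²` -/
noncomputable def qex {d : ℕ} {J : Type} [Fintype J] (w : J → ℝ) (a : J → Fin d → ℝ) (c : J → ℝ)
    (s : ℝ) (y : Fin d → ℝ) : ℝ :=
  ∑ j, w j * (a j ⬝ᵥ y - s * c j) ^ 2

/-- the Gaussian integral `∫ exp(-Σ_j w_j (a_j·y - s c_j)²) dy` -/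
noncomputable def gg {d : ℕ} {J : Type} [Fintype J] (w : J → ℝ) (a : J → Fin d → ℝ) (c : J → ℝ)
    (s : ℝ) : ℝ :=
  ∫ y : Fin d → ℝ, Real.exp (-(qex w a c s y))

/-- all differences of order `1 ≤ |T| ≤ d+1` of the set function `F` are nonnegative -/
def HF (d : ℕ) {k : ℕ} (F : Finset (Fin k) → ℝ) : Prop :=
  ∀ T B : Finset (Fin k), T.Nonempty → T.card ≤ d + 1 → Disjoint T B →
    0 ≤ ∑ A ∈ T.powerset, (-1 : ℝ) ^ (T \ A).card * F (A ∪ B)

end StarKP
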