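import Pool.Agent.StarKP.Def
open MeasureTheory Set Matrix
namespace StarKP

lemma det_gram_aux {D J : Type} [Fintype D] [DecidableEq D] [Fintype J] (w : J → ℝ)
    (v : J → D → ℝ) :
    (gram w v).det = ∑ τ : D → J, (∏ r, w (τ r)) * (∏ r, v (τ r) r) *
      (Matrix.of fun p q => v (τ p) q).det := by
  classical
  rw [Matrix.det_apply']
  have h : ∀ σ : Equiv.Perm D, ∏ r, gram w v (σ r) r =
      ∑ τ : D → J, ∏ r, w (τ r) * v (τ r) (σ r) * v (τ r) r := by
    intro σ
    simp only [gram, Matrix.of_apply]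
    rw [Finset.prod_univ_sum]
    rw [Fintype.piFinset_univ]
  simp_rw [h, Finset.mul_sum]
  rw [Finset.sum_comm]
  refine Finset.sum_congr rfl fun τ _ => ?_
  rw [← Matrix.det_transpose, Matrix.det_apply', Finset.mul_sum]
  refine Finset.sum_congr rfl fun σ _ => ?_
  rw [Finset.prod_mul_distrib, Finset.prod_mul_distrib]
  simp only [Matrix.transpose_apply, Matrix.of_apply]
  ring

theorem det_gram {D J : Type} [Fintype D] [DecidableEq D] [Fintype J] (w : J → ℝ)
    (v : J → D → ℝ) :
    ((Fintype.card D).factorial : ℝ) * (gram w v).det =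
      ∑ τ : D → J, (∏ r, w (τ r)) * (Matrix.of fun p q => v (τ p) q).det ^ 2 := by
  classical
  have h1 := det_gram_aux w v
  have h2 : ∀ π : Equiv.Perm D, (gram w v).det =
      ∑ τ : D → J, (∏ r, w (τ r)) * (Matrix.of fun p q => v (τ p) q).det *
        (((Equiv.Perm.sign π : ℤ) : ℝ) * ∏ r, v (τ (π r)) r) := by
    intro π
    rw [h1]
    rw [← Equiv.sum_comp (Equiv.arrowCongr π.symm (Equiv.refl J))
      (fun τ : D → J => (∏ r, w (τ r)) * (∏ r, v (τ r) r) *
        (Matrix.of fun p q => v (τ p) q).det)]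
    refine Finset.sum_congr rfl fun τ _ => ?_
    have e1 : ∀ r, (Equiv.arrowCongr π.symm (Equiv.refl J)) τ r = τ (π r) := by
      intro r
      simp [Equiv.arrowCongr]
    simp only [e1]
    have e2 : ∏ r, w (τ (π r)) = ∏ r, w (τ r) := Equiv.prod_comp π (fun r => w (τ r))
    have e3 : (Matrix.of fun p q => v (τ (π p)) q).det =
        ((Equiv.Perm.sign π : ℤ) : ℝ) * (Matrix.of fun p q => v (τ p) q).det :=
      Matrix.det_permute π (Matrix.of fun p q => v (τ p) q)
    rw [e2, e3]
    ring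
  have h3 : ((Fintype.card D).factorial : ℝ) * (gram w v).det =
      ∑ _π : Equiv.Perm D, (gram w v).det := by
    rw [Finset.sum_const, nsmul_eq_mul, Finset.card_univ, Fintype.card_perm]
  rw [h3, Finset.sum_congr rfl (fun π _ => h2 π), Finset.sum_comm]
  refine Finset.sum_congr rfl fun τ _ => ?_
  rw [← Finset.mul_sum, sq, ← mul_assoc]
  congr 1
  rw [Matrix.det_apply']
  rfl
end StarKP
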