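import Pool.Agent.StarKP.Def
open MeasureTheory Set Matrix
namespace StarKP

section
open scoped MatrixOrder

lemma gauss_factor {d : ℕ} (A : Matrix (Fin d) (Fin d) ℝ) (hA : A.PosDef) :
    ∃ B : Matrix (Fin d) (Fin d) ℝ, A = Bᵀ * B ∧ B.det ≠ 0 := by
  obtain ⟨B, hB⟩ := CStarAlgebra.nonneg_iff_eq_star_mul_self.mp hA.posSemidef.nonneg
  have hB' : A = Bᵀ * B := by
    rw [hB, Matrix.star_eq_conjTranspose, Matrix.conjTranspose_eq_transpose_of_trivial]
  refine ⟨B, hB', ?_⟩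
  intro h
  have h1 : A.det = 0 := by rw [hB', Matrix.det_mul, h, mul_zero]
  exact hA.det_pos.ne' h1

end

lemma gauss_std (d : ℕ) :
    Integrable (fun u : Fin d → ℝ => Real.exp (-(u ⬝ᵥ u))) ∧
      (∫ u : Fin d → ℝ, Real.exp (-(u ⬝ᵥ u))) ^ 2 = Real.pi ^ d := by
  have h : (fun u : Fin d → ℝ => Real.exp (-(u ⬝ᵥ u))) =
      fun u : Fin d → ℝ => ∏ i, Real.exp (-1 * (u i) ^ 2) := by
    funext u
    rw [← Real.exp_sum]
    congr 1
    simp only [dotProduct]
    rw [← Finset.sum_neg_distrib]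
    refine Finset.sum_congr rfl fun i _ => ?_
    ring
  rw [h]
  constructor
  · exact Integrable.fintype_prod (f := fun (_ : Fin d) (x : ℝ) => Real.exp (-1 * x ^ 2))
      (μ := fun _ => volume) (fun _ => integrable_exp_neg_mul_sq one_pos)
  · rw [integral_fintype_prod_volume_eq_pow (fun x : ℝ => Real.exp (-1 * x ^ 2)), integral_gaussian,
      Fintype.card_fin, ← pow_mul, mul_comm, pow_mul, div_one, Real.sq_sqrt Real.pi_pos.le]

theorem gauss_int {d : ℕ} (A : Matrix (Fin d) (Fin d) ℝ) (hA : A.PosDef) :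
    Integrable (fun z : Fin d → ℝ => Real.exp (-(z ⬝ᵥ (A *ᵥ z)))) ∧
    (∫ z : Fin d → ℝ, Real.exp (-(z ⬝ᵥ (A *ᵥ z)))) ^ 2 * A.det = Real.pi ^ d := by
  obtain ⟨B, hB, hdet⟩ := gauss_factor A hA
  obtain ⟨hint, hval⟩ := gauss_std d
  have hcomp : (fun z : Fin d → ℝ => Real.exp (-(z ⬝ᵥ (A *ᵥ z)))) =
      (fun u : Fin d → ℝ => Real.exp (-(u ⬝ᵥ u))) ∘ (Matrix.toLin' B) := by
    funext z
    simp only [Function.comp, Matrix.toLin'_apply]
    congr 2
    rw [hB, ← Matrix.mulVec_mulVec, Matrix.dotProduct_mulVec, Matrix.vecMul_transpose]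
  have hmap := Real.map_matrix_volume_pi_eq_smul_volume_pi hdet
  have hmeas : Measurable (Matrix.toLin' B) := (Matrix.toLin' B).continuous_of_finiteDimensional.measurable
  have hcont : Continuous (fun u : Fin d → ℝ => Real.exp (-(u ⬝ᵥ u))) := by
    unfold dotProduct
    fun_prop
  have hc0 : ENNReal.ofReal (abs (B.det)⁻¹) ≠ ⊤ := ENNReal.ofReal_ne_top
  constructor
  · rw [hcomp]
    apply Integrable.comp_measurable _ hmeas
    rw [hmap]
    exact hint.smul_measure hc0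
  · have h1 : ∫ z : Fin d → ℝ, Real.exp (-(z ⬝ᵥ (A *ᵥ z))) =
        abs (B.det)⁻¹ * ∫ u : Fin d → ℝ, Real.exp (-(u ⬝ᵥ u)) := by
      have h2 : ∫ z : Fin d → ℝ, Real.exp (-(z ⬝ᵥ (A *ᵥ z))) =
          ∫ u, Real.exp (-(u ⬝ᵥ u)) ∂(Measure.map (Matrix.toLin' B) volume) := by
        rw [integral_map hmeas.aemeasurable hcont.aestronglyMeasurable]
        have := congrArg (fun f : (Fin d → ℝ) → ℝ => ∫ z, f z) hcomp
        simpa [Function.comp] using this
      rw [h2, hmap, integral_smul_measure, ENNReal.toReal_ofReal (abs_nonneg _), smul_eq_mul]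
    have hdA : A.det = B.det ^ 2 := by rw [hB, Matrix.det_mul, Matrix.det_transpose, sq]
    rw [h1, mul_pow, hval, hdA, sq_abs, inv_pow]
    have : B.det ^ 2 ≠ 0 := pow_ne_zero 2 hdet
    field_simp
end StarKP
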