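import Pool.Agent.StarKP.Gauss

/-!
# StarKP, module Shift: completing the square and the Schur complement
-/

open MeasureTheory Set Matrix
namespace StarKP

/-- the linear term `Σ_j w_j c_j a_j` -/
noncomputable def shiftB {d : ℕ} {J : Type} [Fintype J] (w : J → ℝ) (a : J → Fin d → ℝ)
    (c : J → ℝ) : Fin d → ℝ := fun p => ∑ j, w j * c j * a j p

lemma shift_bil {d : ℕ} {J : Type} [Fintype J] (w : J → ℝ) (a : J → Fin d → ℝ)
    (y z : Fin d → ℝ) : y ⬝ᵥ (gram w a *ᵥ z) = ∑ j, w j * (a j ⬝ᵥ y) * (a j ⬝ᵥ z) := by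
  have h1 : ∀ j, w j * (a j ⬝ᵥ y) * (a j ⬝ᵥ z) = ∑ p, ∑ q, y p * (w j * a j p * a j q * z q) := by
    intro j
    simp only [dotProduct]
    rw [mul_assoc, Finset.sum_mul_sum, Finset.mul_sum]
    refine Finset.sum_congr rfl fun p _ => ?_
    rw [Finset.mul_sum]
    refine Finset.sum_congr rfl fun q _ => ?_
    ring
  simp only [h1]
  rw [Finset.sum_comm]
  simp only [dotProduct, mulVec, gram, Matrix.of_apply]
  refine Finset.sum_congr rfl fun p _ => ?_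
  rw [Finset.sum_comm, Finset.mul_sum]
  refine Finset.sum_congr rfl fun q _ => ?_
  rw [Finset.sum_mul, Finset.mul_sum]

lemma shift_lin {d : ℕ} {J : Type} [Fintype J] (w : J → ℝ) (a : J → Fin d → ℝ) (c : J → ℝ)
    (z : Fin d → ℝ) : z ⬝ᵥ shiftB w a c = ∑ j, w j * c j * (a j ⬝ᵥ z) := by
  simp only [dotProduct, shiftB, Finset.mul_sum]
  rw [Finset.sum_comm]
  refine Finset.sum_congr rfl fun j _ => Finset.sum_congr rfl fun p _ => ?_
  ring

/-- completing the square -/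
lemma shift_qex {d : ℕ} {J : Type} [Fintype J] (w : J → ℝ) (a : J → Fin d → ℝ) (c : J → ℝ)
    {x : Fin d → ℝ} (hx : gram w a *ᵥ x = shiftB w a c) (s : ℝ) (y : Fin d → ℝ) :
    qex w a c s y = (y - s • x) ⬝ᵥ (gram w a *ᵥ (y - s • x)) +
      s ^ 2 * (∑ j, w j * c j ^ 2 - x ⬝ᵥ shiftB w a c) := by
  have e1 : ∀ j, a j ⬝ᵥ (y - s • x) = a j ⬝ᵥ y - s * (a j ⬝ᵥ x) := by
    intro j
    rw [dotProduct_sub, dotProduct_smul, smul_eq_mul]
  have e2 : y ⬝ᵥ (gram w a *ᵥ x) = y ⬝ᵥ shiftB w a c := by rw [hx]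
  have e3 : x ⬝ᵥ (gram w a *ᵥ x) = x ⬝ᵥ shiftB w a c := by rw [hx]
  rw [shift_bil, shift_lin] at e2 e3
  rw [shift_bil, shift_lin]
  simp only [e1]
  unfold qex
  have e4 : ∑ j, w j * (a j ⬝ᵥ y - s * (a j ⬝ᵥ x)) * (a j ⬝ᵥ y - s * (a j ⬝ᵥ x)) =
      ∑ j, w j * (a j ⬝ᵥ y) * (a j ⬝ᵥ y) - 2 * s * ∑ j, w j * (a j ⬝ᵥ y) * (a j ⬝ᵥ x) +
        s ^ 2 * ∑ j, w j * (a j ⬝ᵥ x) * (a j ⬝ᵥ x) := by
    rw [Finset.mul_sum, Finset.mul_sum, ← Finset.sum_sub_distrib, ← Finset.sum_add_distrib]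
    refine Finset.sum_congr rfl fun j _ => ?_
    ring
  have e5 : ∑ j, w j * (a j ⬝ᵥ y - s * c j) ^ 2 =
      ∑ j, w j * (a j ⬝ᵥ y) * (a j ⬝ᵥ y) - 2 * s * ∑ j, w j * c j * (a j ⬝ᵥ y) +
        s ^ 2 * ∑ j, w j * c j ^ 2 := by
    rw [Finset.mul_sum, Finset.mul_sum, ← Finset.sum_sub_distrib, ← Finset.sum_add_distrib]
    refine Finset.sum_congr rfl fun j _ => ?_
    ring
  rw [e4, e5, e2, e3]
  ring

/-- the Schur complement -/
lemma shift_det {d : ℕ} {J : Type} [Fintype J] (w : J → ℝ) (a : J → Fin d → ℝ) (c : J → ℝ)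
    {x : Fin d → ℝ} (hA : (gram w a).det ≠ 0) (hx : gram w a *ᵥ x = shiftB w a c) :
    (∑ j, w j * c j ^ 2 - x ⬝ᵥ shiftB w a c) * (gram w a).det = (gram w (lft a c)).det := by
  have : Invertible (gram w a) := (gram w a).invertibleOfIsUnitDet (isUnit_iff_ne_zero.2 hA)
  have h1 : gram w (lft a c) = Matrix.fromBlocks (gram w a)
      (Matrix.of fun p (_ : Unit) => shiftB w a c p) (Matrix.of fun (_ : Unit) q => shiftB w a c q)
      (Matrix.of fun _ _ => ∑ j, w j * c j ^ 2) := by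
    ext i k
    rcases i with i | i <;> rcases k with k | k
    · simp [gram, lft]
    · simp only [gram, lft, Matrix.of_apply, Sum.elim_inl, Sum.elim_inr, Matrix.fromBlocks_apply₁₂,
        shiftB]
      exact Finset.sum_congr rfl fun j _ => by ring
    · simp only [gram, lft, Matrix.of_apply, Sum.elim_inl, Sum.elim_inr, Matrix.fromBlocks_apply₂₁,
        shiftB]
    · simp only [gram, lft, Matrix.of_apply, Sum.elim_inr, Matrix.fromBlocks_apply₂₂]
      exact Finset.sum_congr rfl fun j _ => by ring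
  have h2 : x = ⅟(gram w a) *ᵥ shiftB w a c := by
    rw [← hx, mulVec_mulVec, invOf_mul_self, one_mulVec]
  have h3 : ((Matrix.of fun (_ : Unit) q => shiftB w a c q) * ⅟(gram w a) *
      (Matrix.of fun p (_ : Unit) => shiftB w a c p)) default default =
      x ⬝ᵥ shiftB w a c := by
    rw [Matrix.mul_assoc, Matrix.mul_apply, dotProduct_comm, h2]
    rfl
  rw [h1, Matrix.det_fromBlocks₁₁, Matrix.det_unique (n := Unit), Matrix.sub_apply, h3, mul_comm]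
  rfl

theorem gg_shift {d : ℕ} {J : Type} [Fintype J] (w : J → ℝ) (a : J → Fin d → ℝ) (c : J → ℝ)
    (hA : (gram w a).PosDef) :
    ∃ Q : ℝ, Q * (gram w a).det = (gram w (lft a c)).det ∧
      ∀ s : ℝ, Integrable (fun y : Fin d → ℝ => Real.exp (-(qex w a c s y))) ∧
        gg w a c s = Real.exp (-(s ^ 2 * Q)) * gg w a c 0 := by
  have hdet : (gram w a).det ≠ 0 := hA.det_pos.ne'
  have : Invertible (gram w a) := (gram w a).invertibleOfIsUnitDet (isUnit_iff_ne_zero.2 hdet)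
  obtain ⟨x, hx0⟩ : ∃ x : Fin d → ℝ, x = ⅟(gram w a) *ᵥ shiftB w a c := ⟨_, rfl⟩
  have hx : gram w a *ᵥ x = shiftB w a c := by
    rw [hx0, mulVec_mulVec, mul_invOf_self, one_mulVec]
  obtain ⟨hint, -⟩ := gauss_int (gram w a) hA
  obtain ⟨Q, hQ⟩ : ∃ Q : ℝ, Q = ∑ j, w j * c j ^ 2 - x ⬝ᵥ shiftB w a c := ⟨_, rfl⟩
  have h1 : ∀ s : ℝ, (fun y : Fin d → ℝ => Real.exp (-(qex w a c s y))) = fun y : Fin d → ℝ =>
      Real.exp (-(s ^ 2 * Q)) *
        Real.exp (-((y - s • x) ⬝ᵥ (gram w a *ᵥ (y - s • x)))) := by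
    intro s
    funext y
    rw [shift_qex w a c hx s y, ← hQ, ← Real.exp_add]
    congr 1
    ring
  have h2 : ∀ s : ℝ, gg w a c s = Real.exp (-(s ^ 2 * Q)) *
      ∫ z : Fin d → ℝ, Real.exp (-(z ⬝ᵥ (gram w a *ᵥ z))) := by
    intro s
    unfold gg
    rw [h1 s, integral_const_mul]
    congr 1
    exact integral_sub_right_eq_self
      (fun z : Fin d → ℝ => Real.exp (-(z ⬝ᵥ (gram w a *ᵥ z)))) (s • x)
  refine ⟨Q, ?_, fun s => ⟨?_, ?_⟩⟩
  · rw [hQ]
    exact shift_det w a c hdet hx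
  · rw [h1 s]
    exact (hint.comp_sub_right (s • x)).const_mul _
  · rw [h2 s, h2 0]
    simp

theorem gg_zero {d : ℕ} {J : Type} [Fintype J] (w : J → ℝ) (a : J → Fin d → ℝ) (c : J → ℝ)
    (hA : (gram w a).PosDef) : gg w a c 0 ^ 2 * (gram w a).det = Real.pi ^ d := by
  obtain ⟨-, h⟩ := gauss_int (gram w a) hA
  have h1 : ∀ y : Fin d → ℝ, qex w a c 0 y = y ⬝ᵥ (gram w a *ᵥ y) := by
    intro y
    rw [shift_bil]
    unfold qex
    refine Finset.sum_congr rfl fun j _ => ?_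
    ring
  unfold gg
  simp only [h1]
  exact h
end StarKP
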