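import Pool.Agent.StarKP.DetGram
import Pool.Agent.StarKP.Shift

/-! # Module A4: monotonicity for polynomials in Gaussians -/

open MeasureTheory Set Matrix
namespace StarKP

theorem PolyAnti_exp {d : ℕ} {J : Type} [Fintype J] (a : J → Fin d → ℝ) (c : J → ℝ)
    (ν : J → ℕ) (s : ℝ) (y : Fin d → ℝ) :
    ∏ j, (Real.exp (-(a j ⬝ᵥ y - s * c j) ^ 2)) ^ ν j =
      Real.exp (-(qex (fun j => (ν j : ℝ)) a c s y)) := by
  unfold qex
  rw [← Finset.sum_neg_distrib, Real.exp_sum]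
  apply Finset.prod_congr rfl
  intro j _
  rw [← Real.exp_nat_mul]
  congr 1
  ring

theorem PolyAnti_prod {d : ℕ} {J : Type} [Fintype J] (a : J → Fin d → ℝ) (c : J → ℝ)
    (w : J → ℝ) (s : ℝ) (hI : ∀ s : ℝ, Integrable (fun y : Fin d → ℝ => Real.exp (-(qex w a c s y)))) :
    Integrable (fun q : (Fin d → ℝ) × ((Fin d → ℝ) × (Fin d → ℝ)) =>
      Real.exp (-(qex w a c s q.1)) * (Real.exp (-(qex w a c 0 q.2.1)) *
        Real.exp (-(qex w a c 0 q.2.2)))) ∧
    ∫ q : (Fin d → ℝ) × ((Fin d → ℝ) × (Fin d → ℝ)),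
      Real.exp (-(qex w a c s q.1)) * (Real.exp (-(qex w a c 0 q.2.1)) *
        Real.exp (-(qex w a c 0 q.2.2))) = gg w a c s * gg w a c 0 ^ 2 := by
  have h1 : Integrable (fun q : (Fin d → ℝ) × (Fin d → ℝ) =>
      Real.exp (-(qex w a c 0 q.1)) * Real.exp (-(qex w a c 0 q.2))) := (hI 0).mul_prod (hI 0)
  constructor
  · exact (hI s).mul_prod h1
  · have e1 := integral_prod_mul (μ := (volume : Measure (Fin d → ℝ)))
      (ν := (volume : Measure ((Fin d → ℝ) × (Fin d → ℝ))))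
      (fun y => Real.exp (-(qex w a c s y)))
      (fun q => Real.exp (-(qex w a c 0 q.1)) * Real.exp (-(qex w a c 0 q.2)))
    have e2 := integral_prod_mul (μ := (volume : Measure (Fin d → ℝ)))
      (ν := (volume : Measure (Fin d → ℝ)))
      (fun y => Real.exp (-(qex w a c 0 y))) (fun y => Real.exp (-(qex w a c 0 y)))
    rw [← Measure.volume_eq_prod] at e1 e2
    rw [e1, e2]
    unfold gg
    ring

theorem PolyAnti_pow {d : ℕ} {J : Type} [Fintype J] (a : J → Fin d → ℝ) (c : J → ℝ)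
    (ν : J → ℕ) (s : ℝ) (y₁ y₂ y₃ : Fin d → ℝ) :
    Real.exp (-(qex (fun j => (ν j : ℝ)) a c s y₁)) *
      (Real.exp (-(qex (fun j => (ν j : ℝ)) a c 0 y₂)) *
        Real.exp (-(qex (fun j => (ν j : ℝ)) a c 0 y₃))) =
    ∏ j, (Real.exp (-(a j ⬝ᵥ y₁ - s * c j) ^ 2) * (Real.exp (-(a j ⬝ᵥ y₂ - 0 * c j) ^ 2) *
      Real.exp (-(a j ⬝ᵥ y₃ - 0 * c j) ^ 2))) ^ ν j := by
  rw [← PolyAnti_exp, ← PolyAnti_exp, ← PolyAnti_exp, ← Finset.prod_mul_distrib,
    ← Finset.prod_mul_distrib]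
  apply Finset.prod_congr rfl
  intro j _
  rw [mul_pow, mul_pow]

/-- Key monotonicity for polynomials in Gaussians. -/
theorem poly_anti {d : ℕ} {J : Type} [Fintype J] [DecidableEq J] (a : J → Fin d → ℝ) (c : J → ℝ)
    (S : Finset (J → ℕ)) (co : (J → ℕ) → ℝ)
    (hpos : ∀ ν ∈ S, (gram (fun j => (ν j : ℝ)) a).PosDef)
    (hD : ∀ τ : Fin d ⊕ Unit → J, Function.Injective τ → ∀ x : J → ℝ,
      (∀ j, 0 ≤ x j ∧ x j ≤ 1) →
      0 ≤ ∑ ν ∈ S, co ν * (∏ r, (ν (τ r) : ℝ)) * ∏ j, x j ^ ν j) :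
    AntitoneOn (fun s : ℝ => ∫ y : Fin d → ℝ,
      ∑ ν ∈ S, co ν * ∏ j, (Real.exp (-(a j ⬝ᵥ y - s * c j) ^ 2)) ^ ν j) (Ici 0) := by
  -- the constants
  have hQ : ∀ ν : J → ℕ, ∃ Q : ℝ, ν ∈ S →
      (Q * (gram (fun j => (ν j : ℝ)) a).det = (gram (fun j => (ν j : ℝ)) (lft a c)).det ∧
      ∀ s : ℝ, Integrable (fun y : Fin d → ℝ => Real.exp (-(qex (fun j => (ν j : ℝ)) a c s y))) ∧
        gg (fun j => (ν j : ℝ)) a c s =
          Real.exp (-(s ^ 2 * Q)) * gg (fun j => (ν j : ℝ)) a c 0) := by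
    intro ν
    by_cases hν : ν ∈ S
    · obtain ⟨Q, h⟩ := gg_shift (fun j => (ν j : ℝ)) a c (hpos ν hν)
      exact ⟨Q, fun _ => h⟩
    · exact ⟨0, fun h => absurd h hν⟩
  choose Q hQ using hQ
  set g : (J → ℕ) → ℝ → ℝ := fun ν s => gg (fun j => (ν j : ℝ)) a c s with hg
  have hfun : ∀ s : ℝ, ∫ y : Fin d → ℝ,
      ∑ ν ∈ S, co ν * ∏ j, (Real.exp (-(a j ⬝ᵥ y - s * c j) ^ 2)) ^ ν j =
      ∑ ν ∈ S, co ν * (Real.exp (-(s ^ 2 * Q ν)) * g ν 0) := by
    intro s
    simp_rw [PolyAnti_exp]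
    rw [integral_finsetSum]
    · apply Finset.sum_congr rfl
      intro ν hν
      rw [integral_const_mul, ← ((hQ ν hν).2 s).2]
      rfl
    · intro ν hν
      exact ((hQ ν hν).2 s).1.const_mul _
  -- the sum of the derivatives
  have key : ∀ s : ℝ, 0 ≤ ∑ ν ∈ S, co ν * (Q ν * g ν s) := by
    intro s
    set N : ℝ := ((Fintype.card (Fin d ⊕ Unit)).factorial : ℝ) with hN
    have hNpos : 0 < N := by rw [hN]; exact_mod_cast Nat.factorial_pos _
    have hpi : 0 < Real.pi ^ d := by positivity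
    have h1 : (N * Real.pi ^ d) * ∑ ν ∈ S, co ν * (Q ν * g ν s) =
        ∑ τ : Fin d ⊕ Unit → J, (Matrix.of fun p q => lft a c (τ p) q).det ^ 2 *
          ∑ ν ∈ S, co ν * (∏ r, (ν (τ r) : ℝ)) * (g ν s * g ν 0 ^ 2) := by
      simp_rw [Finset.mul_sum]
      rw [Finset.sum_comm]
      apply Finset.sum_congr rfl
      intro ν hν
      have e1 := det_gram (fun j => (ν j : ℝ)) (lft a c)
      have e2 := gg_zero (fun j => (ν j : ℝ)) a c (hpos ν hν)
      have e3 := (hQ ν hν).1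
      calc N * Real.pi ^ d * (co ν * (Q ν * g ν s)) =
          co ν * (g ν s * g ν 0 ^ 2) * (N * (Q ν * (gram (fun j => (ν j : ℝ)) a).det)) := by
            rw [← e2]; ring
        _ = co ν * (g ν s * g ν 0 ^ 2) * (N * (gram (fun j => (ν j : ℝ)) (lft a c)).det) := by
            rw [e3]
        _ = _ := by
            rw [hN, e1, Finset.mul_sum]
            apply Finset.sum_congr rfl
            intro τ _
            ring
    have h2 : 0 ≤ ∑ τ : Fin d ⊕ Unit → J, (Matrix.of fun p q => lft a c (τ p) q).det ^ 2 *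
          ∑ ν ∈ S, co ν * (∏ r, (ν (τ r) : ℝ)) * (g ν s * g ν 0 ^ 2) := by
      apply Finset.sum_nonneg
      intro τ _
      by_cases hτ : Function.Injective τ
      · apply mul_nonneg (sq_nonneg _)
        have h3 : ∑ ν ∈ S, co ν * (∏ r, (ν (τ r) : ℝ)) * (g ν s * g ν 0 ^ 2) =
            ∫ q : (Fin d → ℝ) × ((Fin d → ℝ) × (Fin d → ℝ)),
              ∑ ν ∈ S, co ν * (∏ r, (ν (τ r) : ℝ)) *
                ∏ j, (Real.exp (-(a j ⬝ᵥ q.1 - s * c j) ^ 2) *
                  (Real.exp (-(a j ⬝ᵥ q.2.1 - 0 * c j) ^ 2) *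
                  Real.exp (-(a j ⬝ᵥ q.2.2 - 0 * c j) ^ 2))) ^ ν j := by
          simp_rw [← PolyAnti_pow]
          rw [integral_finsetSum]
          · apply Finset.sum_congr rfl
            intro ν hν
            rw [integral_const_mul, (PolyAnti_prod a c _ s (fun s => ((hQ ν hν).2 s).1)).2]
          · intro ν hν
            exact (PolyAnti_prod a c _ s (fun s => ((hQ ν hν).2 s).1)).1.const_mul _
        rw [h3]
        apply integral_nonneg
        intro q
        apply hD τ hτ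
        intro j
        constructor
        · positivity
        · have f1 : ∀ t : ℝ, Real.exp (-t ^ 2) ≤ 1 := fun t => by
            rw [Real.exp_le_one_iff]
            have := sq_nonneg t
            linarith
          have f2 := f1 (a j ⬝ᵥ q.1 - s * c j)
          have f3 := f1 (a j ⬝ᵥ q.2.1 - 0 * c j)
          have f4 := f1 (a j ⬝ᵥ q.2.2 - 0 * c j)
          exact mul_le_one₀ f2 (by positivity) (mul_le_one₀ f3 (by positivity) f4)
      · have : (Matrix.of fun p q => lft a c (τ p) q).det = 0 := by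
          rw [Function.Injective] at hτ
          push Not at hτ
          obtain ⟨p, p', hpp, hne⟩ := hτ
          apply Matrix.det_zero_of_row_eq hne
          funext q
          simp [hpp]
        rw [this]
        simp
    rw [← h1] at h2
    exact nonneg_of_mul_nonneg_right h2 (by positivity)
  -- monotonicity
  have hder : ∀ s : ℝ, HasDerivAt (fun s : ℝ => ∑ ν ∈ S, co ν *
      (Real.exp (-(s ^ 2 * Q ν)) * g ν 0)) (-(2 * s) * ∑ ν ∈ S, co ν * (Q ν * g ν s)) s := by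
    intro s
    have h1 : ∀ ν ∈ S, HasDerivAt (fun s : ℝ => co ν * (Real.exp (-(s ^ 2 * Q ν)) * g ν 0))
        (co ν * (Real.exp (-(s ^ 2 * Q ν)) * (-((2 * s) * Q ν)) * g ν 0)) s := by
      intro ν _
      have h2 : HasDerivAt (fun s : ℝ => -(s ^ 2 * Q ν)) (-((2 * s) * Q ν)) s := by
        have := ((hasDerivAt_pow 2 s).mul_const (Q ν)).fun_neg
        simpa using this
      exact (h2.exp.mul_const _).const_mul _
    refine (HasDerivAt.fun_sum h1).congr_deriv ?_
    symm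
    rw [Finset.mul_sum]
    apply Finset.sum_congr rfl
    intro ν hν
    have := ((hQ ν hν).2 s).2
    show -(2 * s) * (co ν * (Q ν * g ν s)) = _
    have h4 : g ν s = Real.exp (-(s ^ 2 * Q ν)) * g ν 0 := this
    rw [h4]
    ring
  simp_rw [hfun]
  apply antitoneOn_of_deriv_nonpos (convex_Ici 0)
  · exact fun s _ => (hder s).continuousAt.continuousWithinAt
  · exact fun s _ => (hder s).differentiableAt.differentiableWithinAt
  · intro s hs
    rw [interior_Ici] at hs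
    have hs' : 0 < s := hs
    rw [(hder s).deriv]
    have := key s
    nlinarith [mul_nonneg hs'.le this]

end StarKP
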