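import Pool.Agent.StarKP.PolyAnti

/-! # Module B: monotonicity for products of polynomials in the Gaussians -/

open MeasureTheory Set Matrix
namespace StarKP

theorem ProdAnti_expand {J : Type} [Fintype J] [DecidableEq J] (U : J → Polynomial ℝ) (N : ℕ)
    (hN : ∀ j, (U j).natDegree < N) (T : Finset J) (x : J → ℝ) :
    ∏ j, (if j ∈ T then x j * (Polynomial.derivative (U j)).eval (x j) else (U j).eval (x j)) =
      ∑ ν ∈ Fintype.piFinset (fun _ : J => Finset.range N),
        (∏ j, (U j).coeff (ν j)) * (∏ j ∈ T, (ν j : ℝ)) * ∏ j, x j ^ ν j := by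
  have h1 : ∀ j, (if j ∈ T then x j * (Polynomial.derivative (U j)).eval (x j) else
      (U j).eval (x j)) =
      ∑ n ∈ Finset.range N, (U j).coeff n * (if j ∈ T then (n : ℝ) else 1) * x j ^ n := by
    intro j
    split_ifs with h
    · rw [Polynomial.derivative_eval, Polynomial.sum_over_range' _ (by intro n; simp) N (hN j),
        Finset.mul_sum]
      apply Finset.sum_congr rfl
      intro n _
      rcases n with _ | n
      · simp
      · simp only [Nat.add_sub_cancel]
        push_cast
        ring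
    · rw [Polynomial.eval_eq_sum_range' (hN j)]
      simp
  rw [Finset.prod_congr rfl (fun j _ => h1 j), Finset.prod_univ_sum]
  apply Finset.sum_congr rfl
  intro ν _
  rw [Finset.prod_mul_distrib, Finset.prod_mul_distrib, Finset.prod_ite_mem, Finset.univ_inter]

theorem ProdAnti_quad {d : ℕ} {J : Type} [Fintype J] (w : J → ℝ) (v : J → Fin d → ℝ)
    (z : Fin d → ℝ) : z ⬝ᵥ (gram w v *ᵥ z) = ∑ j, w j * (v j ⬝ᵥ z) ^ 2 := by
  have h1 : ∀ j, w j * (v j ⬝ᵥ z) ^ 2 = ∑ p, ∑ q, z p * (w j * v j p * v j q * z q) := by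
    intro j
    rw [sq, dotProduct, Finset.sum_mul_sum, Finset.mul_sum]
    apply Finset.sum_congr rfl
    intro p _
    rw [Finset.mul_sum]
    apply Finset.sum_congr rfl
    intro q _
    ring
  rw [Finset.sum_congr rfl (fun j _ => h1 j), Finset.sum_comm]
  simp only [dotProduct, mulVec, gram, Matrix.of_apply]
  apply Finset.sum_congr rfl
  intro p _
  rw [Finset.sum_comm, Finset.mul_sum]
  apply Finset.sum_congr rfl
  intro q _
  rw [← Finset.mul_sum, Finset.sum_mul]

theorem ProdAnti_posDef {d : ℕ} {J : Type} [Fintype J] (w : J → ℝ) (v : J → Fin d → ℝ)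
    (h : ∀ z : Fin d → ℝ, z ≠ 0 → 0 < ∑ j, w j * (v j ⬝ᵥ z) ^ 2) : (gram w v).PosDef := by
  apply Matrix.PosDef.of_dotProduct_mulVec_pos
  · ext p q
    simp only [Matrix.conjTranspose_apply, gram, Matrix.of_apply, star_trivial]
    apply Finset.sum_congr rfl
    intro j _
    ring
  · intro z hz
    rw [star_trivial, ProdAnti_quad]
    exact h z hz

theorem ProdAnti_comb {k d : ℕ} (F : Finset (Fin k) → ℝ) (hF : HF d F) (T : Finset (Fin k))
    (hT : T.Nonempty) (hc : T.card ≤ d + 1) (D p : Fin k → ℝ) (hD : ∀ j, 0 ≤ D j)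
    (hp0 : ∀ j, 0 ≤ p j) (hp1 : ∀ j, p j ≤ 1) :
    0 ≤ ∑ A : Finset (Fin k), F A * ∏ j, (if j ∈ T then (if j ∈ A then D j else -D j) else
      (if j ∈ A then p j else 1 - p j)) := by
  classical
  set f : Finset (Fin k) → ℝ := fun A => F A * ∏ j, (if j ∈ T then (if j ∈ A then D j else -D j) else
      (if j ∈ A then p j else 1 - p j)) with hf
  have e : ∑ A : Finset (Fin k), f A = ∑ q ∈ T.powerset ×ˢ Tᶜ.powerset, f (q.1 ∪ q.2) := by
    refine Finset.sum_bij' (fun A _ => (A ∩ T, A ∩ Tᶜ)) (fun q _ => q.1 ∪ q.2) ?_ ?_ ?_ ?_ ?_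
    · intro A _
      rw [Finset.mem_product, Finset.mem_powerset, Finset.mem_powerset]
      exact ⟨Finset.inter_subset_right, Finset.inter_subset_right⟩
    · intro q _
      exact Finset.mem_univ _
    · intro A _
      simp only
      rw [← Finset.inter_union_distrib_left, Finset.union_compl, Finset.inter_univ]
    · intro q hq
      rw [Finset.mem_product, Finset.mem_powerset, Finset.mem_powerset] at hq
      obtain ⟨h1, h2⟩ := hq
      have h3 : ∀ i, i ∈ q.1 → i ∈ T := fun i hi => h1 hi
      have h4 : ∀ i, i ∈ q.2 → i ∉ T := fun i hi => Finset.mem_compl.1 (h2 hi)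
      ext i
      · simp only [Finset.mem_inter, Finset.mem_union]
        constructor
        · rintro ⟨h | h, h5⟩
          · exact h
          · exact absurd h5 (h4 i h)
        · intro h
          exact ⟨Or.inl h, h3 i h⟩
      · simp only [Finset.mem_inter, Finset.mem_union, Finset.mem_compl]
        constructor
        · rintro ⟨h | h, h5⟩
          · exact absurd (h3 i h) h5
          · exact h
        · intro h
          exact ⟨Or.inr h, h4 i h⟩
    · intro A _
      simp only
      rw [← Finset.inter_union_distrib_left, Finset.union_compl, Finset.inter_univ]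
  rw [e, Finset.sum_product_right]
  apply Finset.sum_nonneg
  intro B hB
  rw [Finset.mem_powerset] at hB
  have hBT : ∀ i, i ∈ B → i ∉ T := fun i hi => Finset.mem_compl.1 (hB hi)
  have hdis : Disjoint T B := by
    rw [Finset.disjoint_right]
    exact fun i hi => hBT i hi
  have h1 : ∀ A ∈ T.powerset, f (A ∪ B) = ((∏ j ∈ T, D j) * ∏ j ∈ Tᶜ, (if j ∈ B then p j else 1 - p j)) *
      ((-1 : ℝ) ^ (T \ A).card * F (A ∪ B)) := by
    intro A hA
    rw [Finset.mem_powerset] at hA
    simp only [hf]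
    rw [← Finset.prod_mul_prod_compl T]
    have h2 : ∏ j ∈ T, (if j ∈ T then (if j ∈ A ∪ B then D j else -D j) else
        (if j ∈ A ∪ B then p j else 1 - p j)) = (∏ j ∈ T, D j) * (-1 : ℝ) ^ (T \ A).card := by
      have h3 : ∀ j ∈ T, (if j ∈ T then (if j ∈ A ∪ B then D j else -D j) else
        (if j ∈ A ∪ B then p j else 1 - p j)) = D j * (if j ∈ A then 1 else -1) := by
        intro j hj
        rw [if_pos hj]
        by_cases hjA : j ∈ A
        · rw [if_pos (Finset.mem_union_left _ hjA), if_pos hjA, mul_one]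
        · rw [if_neg, if_neg hjA]
          · ring
          · intro h
            rcases Finset.mem_union.1 h with h | h
            · exact hjA h
            · exact hBT j h hj
      rw [Finset.prod_congr rfl h3, Finset.prod_mul_distrib]
      congr 1
      rw [Finset.prod_ite, Finset.prod_const_one, one_mul, Finset.prod_const,
        Finset.filter_notMem_eq_sdiff]
    have h4 : ∏ j ∈ Tᶜ, (if j ∈ T then (if j ∈ A ∪ B then D j else -D j) else
        (if j ∈ A ∪ B then p j else 1 - p j)) = ∏ j ∈ Tᶜ, (if j ∈ B then p j else 1 - p j) := by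
      apply Finset.prod_congr rfl
      intro j hj
      rw [Finset.mem_compl] at hj
      rw [if_neg hj]
      have : j ∈ A ∪ B ↔ j ∈ B := by
        rw [Finset.mem_union]
        constructor
        · rintro (h | h)
          · exact absurd (hA h) hj
          · exact h
        · exact Or.inr
      by_cases hjB : j ∈ B
      · rw [if_pos hjB, if_pos (this.2 hjB)]
      · rw [if_neg hjB, if_neg (fun h => hjB (this.1 h))]
    rw [h2, h4]
    ring
  rw [Finset.sum_congr rfl h1, ← Finset.mul_sum]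
  apply mul_nonneg
  · apply mul_nonneg
    · exact Finset.prod_nonneg fun j _ => hD j
    · apply Finset.prod_nonneg
      intro j _
      split_ifs
      · exact hp0 j
      · linarith [hp1 j]
  · exact hF T B hT hc hdis

/-- integrability and monotonicity for products of polynomials in the Gaussians -/
theorem prod_anti {d k : ℕ} (a : Fin k → Fin d → ℝ) (c : Fin k → ℝ) (F : Finset (Fin k) → ℝ)
    (hF : HF d F) (P : Fin k → Polynomial ℝ) (R : Fin d → Polynomial ℝ)
    (hP0 : ∀ j, ∀ x ∈ Icc (0 : ℝ) 1, 0 ≤ (P j).eval x)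
    (hP1 : ∀ j, ∀ x ∈ Icc (0 : ℝ) 1, (P j).eval x ≤ 1)
    (hPd : ∀ j, ∀ x ∈ Icc (0 : ℝ) 1, 0 ≤ (Polynomial.derivative (P j)).eval x)
    (hR0 : ∀ l, ∀ x ∈ Icc (0 : ℝ) 1, 0 ≤ (R l).eval x)
    (hRd : ∀ l, ∀ x ∈ Icc (0 : ℝ) 1, 0 ≤ (Polynomial.derivative (R l)).eval x)
    (hRz : ∀ l, (R l).eval 0 = 0) :
    AntitoneOn (fun s : ℝ => ∫ y : Fin d → ℝ,
      (∑ A : Finset (Fin k), F A *
        ((∏ j ∈ A, (P j).eval (Real.exp (-(a j ⬝ᵥ y - s * c j) ^ 2))) *
          ∏ j ∈ Aᶜ, (1 - (P j).eval (Real.exp (-(a j ⬝ᵥ y - s * c j) ^ 2))))) *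
      ∏ l, (R l).eval (Real.exp (-(y l) ^ 2))) (Ici 0) := by
  classical
  set v : Fin k ⊕ Fin d → Fin d → ℝ := Sum.elim a (fun l => Pi.single l 1) with hv
  set c' : Fin k ⊕ Fin d → ℝ := Sum.elim c (fun _ => 0) with hc'
  set U : Finset (Fin k) → Fin k ⊕ Fin d → Polynomial ℝ :=
    fun A => Sum.elim (fun j => if j ∈ A then P j else 1 - P j) R with hU
  set N : ℕ := ∑ j, (P j).natDegree + ∑ l, (R l).natDegree + 1 with hNdef
  have hN : ∀ A j, (U A j).natDegree < N := by
    intro A j
    rcases j with j | l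
    · have h1 : (P j).natDegree ≤ ∑ j, (P j).natDegree :=
        Finset.single_le_sum (f := fun j => (P j).natDegree) (fun _ _ => Nat.zero_le _)
          (Finset.mem_univ j)
      simp only [hU, Sum.elim_inl]
      split_ifs
      · omega
      · have h2 := Polynomial.natDegree_sub_le (1 : Polynomial ℝ) (P j)
        rw [Polynomial.natDegree_one, Nat.zero_max] at h2
        omega
    · have h1 : (R l).natDegree ≤ ∑ l, (R l).natDegree :=
        Finset.single_le_sum (f := fun l => (R l).natDegree) (fun _ _ => Nat.zero_le _)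
          (Finset.mem_univ l)
      simp only [hU, Sum.elim_inr]
      omega
  set S0 : Finset (Fin k ⊕ Fin d → ℕ) :=
    Fintype.piFinset (fun _ : Fin k ⊕ Fin d => Finset.range N) with hS0
  set S : Finset (Fin k ⊕ Fin d → ℕ) := S0.filter (fun ν => ∀ l, 1 ≤ ν (Sum.inr l)) with hS
  set co : (Fin k ⊕ Fin d → ℕ) → ℝ :=
    fun ν => ∑ A : Finset (Fin k), F A * ∏ j, (U A j).coeff (ν j) with hco
  have hco0 : ∀ ν, ν ∈ S0 → ν ∉ S → co ν = 0 := by
    intro ν h0 h1
    rw [hS, Finset.mem_filter] at h1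
    push Not at h1
    obtain ⟨l, hl⟩ := h1 h0
    have hl0 : ν (Sum.inr l) = 0 := by omega
    simp only [hco]
    apply Finset.sum_eq_zero
    intro A _
    have h2 : ∏ j, (U A j).coeff (ν j) = 0 := by
      apply Finset.prod_eq_zero (Finset.mem_univ (Sum.inr l : Fin k ⊕ Fin d))
      rw [hl0]
      simp only [hU, Sum.elim_inr]
      rw [Polynomial.coeff_zero_eq_eval_zero]
      exact hRz l
    rw [h2, mul_zero]
  have hexp : ∀ (T : Finset (Fin k ⊕ Fin d)) (x : Fin k ⊕ Fin d → ℝ),
      ∑ ν ∈ S, co ν * (∏ j ∈ T, (ν j : ℝ)) * ∏ j, x j ^ ν j =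
      ∑ A : Finset (Fin k), F A * ∏ j, (if j ∈ T then
        x j * (Polynomial.derivative (U A j)).eval (x j) else (U A j).eval (x j)) := by
    intro T x
    have h1 : ∑ ν ∈ S, co ν * (∏ j ∈ T, (ν j : ℝ)) * ∏ j, x j ^ ν j =
        ∑ ν ∈ S0, co ν * (∏ j ∈ T, (ν j : ℝ)) * ∏ j, x j ^ ν j := by
      apply Finset.sum_subset (Finset.filter_subset _ _)
      intro ν h2 h3
      rw [hco0 ν h2 h3]
      ring
    rw [h1]
    have h2 : ∀ A : Finset (Fin k), F A * ∏ j, (if j ∈ T then
        x j * (Polynomial.derivative (U A j)).eval (x j) else (U A j).eval (x j)) =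
        ∑ ν ∈ S0, F A * ((∏ j, (U A j).coeff (ν j)) * (∏ j ∈ T, (ν j : ℝ)) * ∏ j, x j ^ ν j) := by
      intro A
      rw [ProdAnti_expand (U A) N (hN A) T x, Finset.mul_sum]
    rw [Finset.sum_congr rfl (fun A _ => h2 A), Finset.sum_comm]
    apply Finset.sum_congr rfl
    intro ν _
    simp only [hco]
    rw [Finset.sum_mul, Finset.sum_mul]
    apply Finset.sum_congr rfl
    intro A _
    ring
  have hpos : ∀ ν ∈ S, (gram (fun j => (ν j : ℝ)) v).PosDef := by
    intro ν hν
    rw [hS, Finset.mem_filter] at hν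
    apply ProdAnti_posDef
    intro z hz
    rw [Fintype.sum_sum_type]
    obtain ⟨l, hl⟩ := Function.ne_iff.1 hz
    have h1 : 0 ≤ ∑ j : Fin k, (ν (Sum.inl j) : ℝ) * (v (Sum.inl j) ⬝ᵥ z) ^ 2 :=
      Finset.sum_nonneg fun j _ => by positivity
    have h2 : 0 < ∑ l : Fin d, (ν (Sum.inr l) : ℝ) * (v (Sum.inr l) ⬝ᵥ z) ^ 2 := by
      apply Finset.sum_pos'
      · intro l _
        positivity
      · refine ⟨l, Finset.mem_univ l, ?_⟩
        have h3 : v (Sum.inr l) ⬝ᵥ z = z l := by
          simp only [hv, Sum.elim_inr]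
          rw [single_dotProduct, one_mul]
        have h4 : (1 : ℝ) ≤ ν (Sum.inr l) := by exact_mod_cast hν.2 l
        have h5 : z l ≠ 0 := hl
        rw [h3]
        positivity
    linarith
  have hD : ∀ τ : Fin d ⊕ Unit → Fin k ⊕ Fin d, Function.Injective τ → ∀ x : Fin k ⊕ Fin d → ℝ,
      (∀ j, 0 ≤ x j ∧ x j ≤ 1) →
      0 ≤ ∑ ν ∈ S, co ν * (∏ r, (ν (τ r) : ℝ)) * ∏ j, x j ^ ν j := by
    intro τ hτ x hx
    set T : Finset (Fin k ⊕ Fin d) := Finset.univ.image τ with hT
    have hcard : T.card = d + 1 := by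
      rw [hT, Finset.card_image_of_injective _ hτ, Finset.card_univ, Fintype.card_sum,
        Fintype.card_fin, Fintype.card_unit]
    have h1 : ∀ ν ∈ S, co ν * (∏ r, (ν (τ r) : ℝ)) * ∏ j, x j ^ ν j =
        co ν * (∏ j ∈ T, (ν j : ℝ)) * ∏ j, x j ^ ν j := by
      intro ν _
      rw [hT, Finset.prod_image (fun r _ r' _ h => hτ h)]
    rw [Finset.sum_congr rfl h1, hexp T x]
    set T' : Finset (Fin k) := Finset.univ.filter (fun j : Fin k => (Sum.inl j : Fin k ⊕ Fin d) ∈ T)
      with hT'
    have hT'mem : ∀ j : Fin k, j ∈ T' ↔ (Sum.inl j : Fin k ⊕ Fin d) ∈ T := by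
      intro j
      rw [hT', Finset.mem_filter]
      simp
    have hT'c : T'.card ≤ d + 1 := by
      rw [← hcard]
      apply Finset.card_le_card_of_injOn (fun j => (Sum.inl j : Fin k ⊕ Fin d))
      · intro j hj
        exact (hT'mem j).1 hj
      · intro i _ j _ h
        exact Sum.inl_injective h
    have hT'n : T'.Nonempty := by
      by_contra hne
      rw [Finset.not_nonempty_iff_eq_empty] at hne
      have h2 : T ⊆ (Finset.univ : Finset (Fin d)).image (fun l => (Sum.inr l : Fin k ⊕ Fin d)) := by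
        intro j hj
        rcases j with j | l
        · have : j ∈ T' := (hT'mem j).2 hj
          rw [hne] at this
          exact absurd this (Finset.notMem_empty _)
        · exact Finset.mem_image_of_mem _ (Finset.mem_univ l)
      have h3 := (Finset.card_le_card h2).trans Finset.card_image_le
      rw [hcard, Finset.card_univ, Fintype.card_fin] at h3
      omega
    have hx' : ∀ j, x j ∈ Icc (0 : ℝ) 1 := fun j => ⟨(hx j).1, (hx j).2⟩
    set D : Fin k → ℝ := fun j =>
      x (Sum.inl j) * (Polynomial.derivative (P j)).eval (x (Sum.inl j)) with hDdef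
    set p : Fin k → ℝ := fun j => (P j).eval (x (Sum.inl j)) with hp
    have key := ProdAnti_comb F hF T' hT'n hT'c D p
      (fun j => mul_nonneg (hx _).1 (hPd j _ (hx' _))) (fun j => hP0 j _ (hx' _))
      (fun j => hP1 j _ (hx' _))
    set box : ℝ := ∏ l : Fin d, (if (Sum.inr l : Fin k ⊕ Fin d) ∈ T then
        x (Sum.inr l) * (Polynomial.derivative (R l)).eval (x (Sum.inr l)) else
          (R l).eval (x (Sum.inr l))) with hbox
    have hbox0 : 0 ≤ box := by
      rw [hbox]
      apply Finset.prod_nonneg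
      intro l _
      split_ifs
      · exact mul_nonneg (hx _).1 (hRd l _ (hx' _))
      · exact hR0 l _ (hx' _)
    have h2 : ∀ A : Finset (Fin k), F A * ∏ j, (if j ∈ T then
        x j * (Polynomial.derivative (U A j)).eval (x j) else (U A j).eval (x j)) =
        (F A * ∏ j, (if j ∈ T' then (if j ∈ A then D j else -D j) else
          (if j ∈ A then p j else 1 - p j))) * box := by
      intro A
      rw [Fintype.prod_sum_type]
      have h3 : ∏ j : Fin k, (if (Sum.inl j : Fin k ⊕ Fin d) ∈ T then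
          x (Sum.inl j) * (Polynomial.derivative (U A (Sum.inl j))).eval (x (Sum.inl j)) else
            (U A (Sum.inl j)).eval (x (Sum.inl j))) =
          ∏ j, (if j ∈ T' then (if j ∈ A then D j else -D j) else
          (if j ∈ A then p j else 1 - p j)) := by
        apply Finset.prod_congr rfl
        intro j _
        have h4 : U A (Sum.inl j) = if j ∈ A then P j else 1 - P j := rfl
        rw [h4]
        by_cases hj : (Sum.inl j : Fin k ⊕ Fin d) ∈ T
        · rw [if_pos hj, if_pos ((hT'mem j).2 hj)]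
          by_cases hjA : j ∈ A
          · rw [if_pos hjA, if_pos hjA]
          · rw [if_neg hjA, if_neg hjA]
            simp [hDdef]
        · rw [if_neg hj, if_neg (fun h => hj ((hT'mem j).1 h))]
          by_cases hjA : j ∈ A
          · rw [if_pos hjA, if_pos hjA]
          · rw [if_neg hjA, if_neg hjA]
            simp [hp]
      have h5 : ∏ l : Fin d, (if (Sum.inr l : Fin k ⊕ Fin d) ∈ T then
          x (Sum.inr l) * (Polynomial.derivative (U A (Sum.inr l))).eval (x (Sum.inr l)) else
            (U A (Sum.inr l)).eval (x (Sum.inr l))) = box := rfl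
      rw [h3, h5]
      ring
    rw [Finset.sum_congr rfl (fun A _ => h2 A), ← Finset.sum_mul]
    exact mul_nonneg key hbox0
  have hmain := poly_anti v c' S co hpos hD
  have hfun : ∀ (s : ℝ) (y : Fin d → ℝ),
      (∑ A : Finset (Fin k), F A *
        ((∏ j ∈ A, (P j).eval (Real.exp (-(a j ⬝ᵥ y - s * c j) ^ 2))) *
          ∏ j ∈ Aᶜ, (1 - (P j).eval (Real.exp (-(a j ⬝ᵥ y - s * c j) ^ 2))))) *
      ∏ l, (R l).eval (Real.exp (-(y l) ^ 2)) =
      ∑ ν ∈ S, co ν * ∏ j, (Real.exp (-(v j ⬝ᵥ y - s * c' j) ^ 2)) ^ ν j := by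
    intro s y
    have h1 := hexp ∅ (fun j => Real.exp (-(v j ⬝ᵥ y - s * c' j) ^ 2))
    simp only [Finset.prod_empty, mul_one, Finset.notMem_empty, if_false] at h1
    rw [h1, Finset.sum_mul]
    apply Finset.sum_congr rfl
    intro A _
    rw [Fintype.prod_sum_type, mul_assoc]
    congr 1
    congr 1
    · rw [← Finset.prod_mul_prod_compl A]
      congr 1
      · apply Finset.prod_congr rfl
        intro j hj
        simp only [hU, hv, hc', Sum.elim_inl, if_pos hj]
      · apply Finset.prod_congr rfl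
        intro j hj
        rw [Finset.mem_compl] at hj
        simp only [hU, hv, hc', Sum.elim_inl, if_neg hj]
        simp
    · apply Finset.prod_congr rfl
      intro l _
      simp only [hU, hv, hc', Sum.elim_inr]
      rw [single_dotProduct, one_mul, mul_zero, sub_zero]
  have hfun2 : (fun s : ℝ => ∫ y : Fin d → ℝ,
      (∑ A : Finset (Fin k), F A *
        ((∏ j ∈ A, (P j).eval (Real.exp (-(a j ⬝ᵥ y - s * c j) ^ 2))) *
          ∏ j ∈ Aᶜ, (1 - (P j).eval (Real.exp (-(a j ⬝ᵥ y - s * c j) ^ 2))))) *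
      ∏ l, (R l).eval (Real.exp (-(y l) ^ 2))) =
      fun s : ℝ => ∫ y : Fin d → ℝ,
        ∑ ν ∈ S, co ν * ∏ j, (Real.exp (-(v j ⬝ᵥ y - s * c' j) ^ 2)) ^ ν j := by
    funext s
    congr 1
    funext y
    exact hfun s y
  rw [hfun2]
  exact hmain

end StarKP
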