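import Mathlib
open MeasureTheory Set Filter Topology
namespace StarKP

/-- the ramp `clamp (m (x - x0)) 0 1` -/
noncomputable def StepPoly_ramp (x0 : ℝ) (m : ℕ) (x : ℝ) : ℝ := max 0 (min 1 ((m : ℝ) * (x - x0)))

/-- Bernstein polynomial of degree `n + 1` of `φ` -/
noncomputable def StepPoly_BP (φ : ℝ → ℝ) (n : ℕ) : Polynomial ℝ :=
  ∑ ν ∈ Finset.range (n + 2),
    Polynomial.C (φ ((ν : ℝ) / ((n : ℝ) + 1))) * bernsteinPolynomial ℝ (n + 1) ν

theorem StepPoly_eval_nonneg (n ν : ℕ) {x : ℝ} (hx : x ∈ Icc (0 : ℝ) 1) :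
    0 ≤ (bernsteinPolynomial ℝ n ν).eval x := by
  have h1 := hx.1
  have h2 : 0 ≤ 1 - x := by linarith [hx.2]
  simp only [bernsteinPolynomial, Polynomial.eval_mul, Polynomial.eval_natCast,
    Polynomial.eval_pow, Polynomial.eval_X, Polynomial.eval_sub, Polynomial.eval_one]
  positivity

theorem StepPoly_BP_eval (φ : ℝ → ℝ) (n : ℕ) (x : ℝ) :
    (StepPoly_BP φ n).eval x = ∑ ν ∈ Finset.range (n + 2),
      φ ((ν : ℝ) / ((n : ℝ) + 1)) * (bernsteinPolynomial ℝ (n + 1) ν).eval x := by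
  unfold StepPoly_BP
  rw [Polynomial.eval_finsetSum]
  refine Finset.sum_congr rfl fun ν _ => ?_
  rw [Polynomial.eval_mul, Polynomial.eval_C]

theorem StepPoly_sum_eval (n : ℕ) (x : ℝ) :
    ∑ ν ∈ Finset.range (n + 2), (bernsteinPolynomial ℝ (n + 1) ν).eval x = 1 := by
  have h := congrArg (Polynomial.eval x) (bernsteinPolynomial.sum ℝ (n + 1))
  rw [Polynomial.eval_finsetSum, Polynomial.eval_one] at h
  exact h

theorem StepPoly_sum_smul_eval (n : ℕ) (x : ℝ) :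
    ∑ ν ∈ Finset.range (n + 2), (ν : ℝ) * (bernsteinPolynomial ℝ (n + 1) ν).eval x =
      ((n : ℝ) + 1) * x := by
  have h := congrArg (Polynomial.eval x) (bernsteinPolynomial.sum_smul ℝ (n + 1))
  rw [Polynomial.eval_finsetSum] at h
  simp only [nsmul_eq_mul, Polynomial.eval_mul, Polynomial.eval_natCast, Polynomial.eval_X] at h
  push_cast at h
  exact h

theorem StepPoly_mem (n ν : ℕ) (h : ν ∈ Finset.range (n + 2)) :
    (ν : ℝ) / ((n : ℝ) + 1) ∈ Icc (0 : ℝ) 1 := by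
  have h1 : ν ≤ n + 1 := by
    rw [Finset.mem_range] at h
    omega
  have h2 : (ν : ℝ) ≤ (n : ℝ) + 1 := by exact_mod_cast h1
  constructor
  · positivity
  · rw [div_le_one (by positivity)]
    exact h2

theorem StepPoly_BP_nonneg {φ : ℝ → ℝ} (hφ : ∀ y ∈ Icc (0 : ℝ) 1, 0 ≤ φ y) (n : ℕ) {x : ℝ}
    (hx : x ∈ Icc (0 : ℝ) 1) : 0 ≤ (StepPoly_BP φ n).eval x := by
  rw [StepPoly_BP_eval]
  exact Finset.sum_nonneg fun ν hν =>
    mul_nonneg (hφ _ (StepPoly_mem n ν hν)) (StepPoly_eval_nonneg _ _ hx)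

theorem StepPoly_BP_le_one {φ : ℝ → ℝ} (hφ : ∀ y ∈ Icc (0 : ℝ) 1, φ y ≤ 1) (n : ℕ) {x : ℝ}
    (hx : x ∈ Icc (0 : ℝ) 1) : (StepPoly_BP φ n).eval x ≤ 1 := by
  rw [StepPoly_BP_eval]
  refine le_trans (Finset.sum_le_sum fun ν hν => ?_) (StepPoly_sum_eval n x).le
  have h1 := hφ _ (StepPoly_mem n ν hν)
  have h2 := StepPoly_eval_nonneg (n + 1) ν hx
  nlinarith

theorem StepPoly_BP_le_lin {φ : ℝ → ℝ} {c : ℝ} (hφ : ∀ y ∈ Icc (0 : ℝ) 1, φ y ≤ y / c) (n : ℕ)
    {x : ℝ} (hx : x ∈ Icc (0 : ℝ) 1) : (StepPoly_BP φ n).eval x ≤ x / c := by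
  have h1 := StepPoly_sum_smul_eval n x
  have hn : (0 : ℝ) < (n : ℝ) + 1 := by positivity
  have h2 : x / c = ∑ ν ∈ Finset.range (n + 2),
      ((ν : ℝ) / ((n : ℝ) + 1)) / c * (bernsteinPolynomial ℝ (n + 1) ν).eval x := by
    have e : ∀ ν ∈ Finset.range (n + 2),
        ((ν : ℝ) / ((n : ℝ) + 1)) / c * (bernsteinPolynomial ℝ (n + 1) ν).eval x =
        (1 / ((n : ℝ) + 1) / c) * ((ν : ℝ) * (bernsteinPolynomial ℝ (n + 1) ν).eval x) := by
      intro ν _
      ring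
    rw [Finset.sum_congr rfl e, ← Finset.mul_sum, h1]
    field_simp
  rw [StepPoly_BP_eval, h2]
  exact Finset.sum_le_sum fun ν hν =>
    mul_le_mul_of_nonneg_right (hφ _ (StepPoly_mem n ν hν)) (StepPoly_eval_nonneg _ _ hx)

/-- derivative of the Bernstein polynomial -/
theorem StepPoly_BP_deriv (φ : ℝ → ℝ) (n : ℕ) :
    Polynomial.derivative (StepPoly_BP φ n) = ∑ ν ∈ Finset.range (n + 1),
      Polynomial.C (((n : ℝ) + 1) * (φ (((ν + 1 : ℕ) : ℝ) / ((n : ℝ) + 1)) -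
        φ ((ν : ℝ) / ((n : ℝ) + 1)))) * bernsteinPolynomial ℝ n ν := by
  set a : ℕ → ℝ := fun ν => φ ((ν : ℝ) / ((n : ℝ) + 1)) with ha
  have e0 : Polynomial.derivative (StepPoly_BP φ n) =
      ∑ ν ∈ Finset.range (n + 2), Polynomial.C (a ν) *
        Polynomial.derivative (bernsteinPolynomial ℝ (n + 1) ν) := by
    unfold StepPoly_BP
    rw [Polynomial.derivative_sum]
    refine Finset.sum_congr rfl fun ν _ => ?_
    rw [Polynomial.derivative_C_mul]
  have e1 : ∑ ν ∈ Finset.range (n + 1), Polynomial.C (a (ν + 1)) *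
        Polynomial.derivative (bernsteinPolynomial ℝ (n + 1) (ν + 1)) =
      ((n : Polynomial ℝ) + 1) * (∑ ν ∈ Finset.range (n + 1),
          Polynomial.C (a (ν + 1)) * bernsteinPolynomial ℝ n ν -
        ∑ ν ∈ Finset.range (n + 1),
          Polynomial.C (a (ν + 1)) * bernsteinPolynomial ℝ n (ν + 1)) := by
    rw [← Finset.sum_sub_distrib, Finset.mul_sum]
    refine Finset.sum_congr rfl fun ν _ => ?_
    rw [bernsteinPolynomial.derivative_succ_aux]
    ring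
  have e2 : ∑ ν ∈ Finset.range (n + 1),
          Polynomial.C (a (ν + 1)) * bernsteinPolynomial ℝ n (ν + 1) +
        Polynomial.C (a 0) * bernsteinPolynomial ℝ n 0 =
      ∑ ν ∈ Finset.range (n + 1), Polynomial.C (a ν) * bernsteinPolynomial ℝ n ν := by
    rw [← Finset.sum_range_succ' (fun ν => Polynomial.C (a ν) * bernsteinPolynomial ℝ n ν),
      Finset.sum_range_succ, bernsteinPolynomial.eq_zero_of_lt ℝ (Nat.lt_succ_self n), mul_zero,
      add_zero]
  have e3 : ∀ ν ∈ Finset.range (n + 1),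
      Polynomial.C (((n : ℝ) + 1) * (φ (((ν + 1 : ℕ) : ℝ) / ((n : ℝ) + 1)) -
        φ ((ν : ℝ) / ((n : ℝ) + 1)))) * bernsteinPolynomial ℝ n ν =
      ((n : Polynomial ℝ) + 1) * (Polynomial.C (a (ν + 1)) * bernsteinPolynomial ℝ n ν -
        Polynomial.C (a ν) * bernsteinPolynomial ℝ n ν) := by
    intro ν _
    rw [Polynomial.C_mul, Polynomial.C_sub, Polynomial.C_add, Polynomial.C_1]
    rw [show (Polynomial.C (n : ℝ) : Polynomial ℝ) = (n : Polynomial ℝ) from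
      Polynomial.C_eq_natCast n]
    ring
  rw [Finset.sum_congr rfl e3, ← Finset.mul_sum, Finset.sum_sub_distrib, ← e2, e0,
    Finset.sum_range_succ', e1, bernsteinPolynomial.derivative_zero]
  simp only [Nat.add_sub_cancel]
  push_cast
  ring

theorem StepPoly_BP_deriv_nonneg {φ : ℝ → ℝ} (hφ : Monotone φ) (n : ℕ) {x : ℝ}
    (hx : x ∈ Icc (0 : ℝ) 1) : 0 ≤ (Polynomial.derivative (StepPoly_BP φ n)).eval x := by
  rw [StepPoly_BP_deriv, Polynomial.eval_finsetSum]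
  refine Finset.sum_nonneg fun ν _ => ?_
  rw [Polynomial.eval_mul, Polynomial.eval_C]
  refine mul_nonneg (mul_nonneg (by positivity) ?_) (StepPoly_eval_nonneg _ _ hx)
  rw [sub_nonneg]
  refine hφ ?_
  have hn : (0 : ℝ) < (n : ℝ) + 1 := by positivity
  push_cast
  gcongr
  linarith

/-- uniform approximation -/
theorem StepPoly_approx {φ : ℝ → ℝ} (hφ : Continuous φ) {ε : ℝ} (hε : 0 < ε) :
    ∃ n : ℕ, ∀ x ∈ Icc (0 : ℝ) 1, |(StepPoly_BP φ n).eval x - φ x| ≤ ε := by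
  set f : C(unitInterval, ℝ) := ⟨fun x => φ x, hφ.comp continuous_subtype_val⟩ with hf
  have h := bernsteinApproximation_uniform f
  rw [Metric.tendsto_atTop] at h
  obtain ⟨N, hN⟩ := h ε hε
  refine ⟨N, fun x hx => ?_⟩
  have h1 := hN (N + 1) (Nat.le_succ N)
  have h2 := (ContinuousMap.dist_apply_le_dist (⟨x, hx⟩ : unitInterval)).trans h1.le
  rw [Real.dist_eq, bernsteinApproximation.apply] at h2
  have e : ∑ k : Fin (N + 1 + 1), bernstein (N + 1) k (⟨x, hx⟩ : unitInterval) •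
      f (bernstein.z k) = (StepPoly_BP φ N).eval x := by
    rw [StepPoly_BP_eval, Finset.sum_range]
    refine Finset.sum_congr rfl fun k _ => ?_
    rw [smul_eq_mul, mul_comm]
    congr 1
    show φ ((k : ℝ) / ((N + 1 : ℕ) : ℝ)) = _
    push_cast
    rfl
  rw [e] at h2
  exact h2

theorem StepPoly_ramp_mono (x0 : ℝ) (m : ℕ) : Monotone (StepPoly_ramp x0 m) := by
  intro x y hxy
  unfold StepPoly_ramp
  have : (m : ℝ) * (x - x0) ≤ (m : ℝ) * (y - x0) :=
    mul_le_mul_of_nonneg_left (by linarith) (Nat.cast_nonneg m)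
  exact max_le_max le_rfl (min_le_min le_rfl this)

theorem StepPoly_ramp_cont (x0 : ℝ) (m : ℕ) : Continuous (StepPoly_ramp x0 m) := by
  unfold StepPoly_ramp
  fun_prop

theorem StepPoly_ramp_zero {x0 : ℝ} (m : ℕ) {x : ℝ} (hx : x ≤ x0) : StepPoly_ramp x0 m x = 0 := by
  unfold StepPoly_ramp
  have : (m : ℝ) * (x - x0) ≤ 0 := mul_nonpos_of_nonneg_of_nonpos (Nat.cast_nonneg m) (by linarith)
  exact max_eq_left ((min_le_right _ _).trans this)

theorem StepPoly_ramp_nonneg (x0 : ℝ) (m : ℕ) (x : ℝ) : 0 ≤ StepPoly_ramp x0 m x :=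
  le_max_left _ _

theorem StepPoly_ramp_le_one (x0 : ℝ) (m : ℕ) (x : ℝ) : StepPoly_ramp x0 m x ≤ 1 :=
  max_le zero_le_one (min_le_left _ _)

theorem StepPoly_ramp_tendsto (x0 x : ℝ) :
    Tendsto (fun m => StepPoly_ramp x0 m x) atTop (𝓝 (if x0 < x then 1 else 0)) := by
  by_cases h : x0 < x
  · rw [if_pos h]
    refine tendsto_const_nhds.congr' ?_
    obtain ⟨M, hM⟩ := exists_nat_ge (1 / (x - x0))
    filter_upwards [eventually_ge_atTop M] with m hm
    have h1 : 0 < x - x0 := by linarith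
    have h2 : 1 ≤ (m : ℝ) * (x - x0) := by
      have h3 : (M : ℝ) ≤ m := by exact_mod_cast hm
      rw [div_le_iff₀ h1] at hM
      nlinarith
    unfold StepPoly_ramp
    rw [min_eq_left h2, max_eq_right zero_le_one]
  · rw [if_neg h]
    refine tendsto_const_nhds.congr ?_
    intro m
    exact (StepPoly_ramp_zero m (not_lt.1 h)).symm

/-- polynomials with nonnegative derivative on `[0,1]` converging to the step function `1_{x > x0}` -/
theorem step_poly (x0 : ℝ) (h0 : 0 < x0) :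
    ∃ P : ℕ → Polynomial ℝ,
      (∀ m, ∀ x ∈ Icc (0 : ℝ) 1, 0 ≤ (P m).eval x ∧ (P m).eval x ≤ 1 ∧ (P m).eval x ≤ x / x0 ∧
        0 ≤ (Polynomial.derivative (P m)).eval x) ∧
      ∀ x ∈ Icc (0 : ℝ) 1,
        Tendsto (fun m => (P m).eval x) atTop (𝓝 (if x0 < x then 1 else 0)) := by
  have hex : ∀ m : ℕ, ∃ n : ℕ, ∀ x ∈ Icc (0 : ℝ) 1,
      |(StepPoly_BP (StepPoly_ramp x0 m) n).eval x - StepPoly_ramp x0 m x| ≤ 1 / ((m : ℝ) + 1) :=
    fun m => StepPoly_approx (StepPoly_ramp_cont x0 m) (by positivity)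
  choose n hn using hex
  refine ⟨fun m => StepPoly_BP (StepPoly_ramp x0 m) (n m), fun m x hx => ⟨?_, ?_, ?_, ?_⟩, ?_⟩
  · exact StepPoly_BP_nonneg (fun y _ => StepPoly_ramp_nonneg x0 m y) _ hx
  · exact StepPoly_BP_le_one (fun y _ => StepPoly_ramp_le_one x0 m y) _ hx
  · refine StepPoly_BP_le_lin (fun y hy => ?_) _ hx
    by_cases h : x0 < y
    · refine (StepPoly_ramp_le_one x0 m y).trans ?_
      rw [le_div_iff₀ h0]
      linarith
    · rw [StepPoly_ramp_zero m (not_lt.1 h)]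
      exact div_nonneg hy.1 h0.le
  · exact StepPoly_BP_deriv_nonneg (StepPoly_ramp_mono x0 m) _ hx
  · intro x hx
    have h1 : Tendsto (fun m : ℕ => (StepPoly_BP (StepPoly_ramp x0 m) (n m)).eval x -
        StepPoly_ramp x0 m x) atTop (𝓝 0) := by
      refine squeeze_zero_norm (fun m => ?_) (tendsto_one_div_add_atTop_nhds_zero_nat (𝕜 := ℝ))
      rw [Real.norm_eq_abs]
      exact hn m x hx
    have h2 := h1.add (StepPoly_ramp_tendsto x0 x)
    rw [zero_add] at h2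
    refine h2.congr fun m => ?_
    ring

end StarKP
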