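import Pool.Agent.StarKP.ProdAnti
import Pool.Agent.StarKP.StepPoly

set_option autoImplicit false
set_option linter.all false

/-!
# The Kneser–Poulsen inequality for slabs in a box

`slab_anti` from `prod_anti` and `step_poly` by dominated convergence.
-/

open MeasureTheory Set Matrix Filter Topology
namespace StarKP

theorem slabAnti_sum {k : ℕ} (F : Finset (Fin k) → ℝ) (p : Fin k → Prop) [DecidablePred p] :
    ∑ A : Finset (Fin k), F A * ((∏ j ∈ A, (if p j then (1 : ℝ) else 0)) *
      ∏ j ∈ Aᶜ, (1 - (if p j then (1 : ℝ) else 0))) = F (Finset.univ.filter p) := by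
  rw [Finset.sum_eq_single (Finset.univ.filter p)]
  · have h1 : ∏ j ∈ Finset.univ.filter p, (if p j then (1 : ℝ) else 0) = 1 := by
      apply Finset.prod_eq_one
      intro j hj
      rw [Finset.mem_filter] at hj
      rw [if_pos hj.2]
    have h2 : ∏ j ∈ (Finset.univ.filter p)ᶜ, (1 - (if p j then (1 : ℝ) else 0)) = 1 := by
      apply Finset.prod_eq_one
      intro j hj
      rw [Finset.mem_compl, Finset.mem_filter, not_and] at hj
      rw [if_neg (hj (Finset.mem_univ j)), sub_zero]
    rw [h1, h2, mul_one, mul_one]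
  · intro A _ hA
    by_cases h : ∃ j ∈ A, ¬ p j
    · obtain ⟨j, hj, hpj⟩ := h
      rw [Finset.prod_eq_zero hj (by rw [if_neg hpj]), zero_mul, mul_zero]
    · push Not at h
      have h2 : ∃ j ∈ Aᶜ, p j := by
        by_contra h3
        push Not at h3
        apply hA
        ext j
        rw [Finset.mem_filter]
        constructor
        · intro hj
          exact ⟨Finset.mem_univ j, h j hj⟩
        · intro hj
          by_contra hjA
          exact h3 j (Finset.mem_compl.2 hjA) hj.2
      obtain ⟨j, hj, hpj⟩ := h2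
      rw [Finset.prod_eq_zero (s := Aᶜ) hj (by rw [if_pos hpj, sub_self]), mul_zero, mul_zero]
  · intro h
    exact absurd (Finset.mem_univ _) h

theorem slabAnti_iff (t h : ℝ) : Real.exp (-(max h 0) ^ 2) < Real.exp (-t ^ 2) ↔ |t| < h := by
  rw [Real.exp_lt_exp, neg_lt_neg_iff]
  rcases le_or_gt h 0 with hh | hh
  · rw [max_eq_right hh]
    constructor
    · intro h1
      nlinarith [sq_nonneg t]
    · intro h1
      have := abs_nonneg t
      linarith
  · rw [max_eq_left hh.le, sq_lt_sq, abs_of_pos hh]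

theorem slabAnti_exp_mem (t : ℝ) : Real.exp (-t ^ 2) ∈ Icc (0 : ℝ) 1 := by
  refine ⟨(Real.exp_pos _).le, ?_⟩
  rw [Real.exp_le_one_iff]
  nlinarith [sq_nonneg t]

theorem slabAnti_int {d : ℕ} (x0 : Fin d → ℝ) : Integrable (fun y : Fin d → ℝ =>
    ∏ l, (Real.exp (-(y l) ^ 2) / x0 l)) := by
  have h := MeasureTheory.Integrable.fintype_prod (𝕜 := ℝ) (ι := Fin d) (E := ℝ)
    (f := fun l (t : ℝ) => Real.exp (-t ^ 2) / x0 l) (μ := fun _ => volume) (by
      intro l
      have h1 := integrable_exp_neg_mul_sq (b := 1) one_pos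
      simp only [neg_mul, one_mul] at h1
      exact h1.div_const _)
  exact h

open Classical in
/-- the Kneser–Poulsen inequality for slabs in a box -/
theorem slab_anti {d k : ℕ} (a : Fin k → Fin d → ℝ) (c h : Fin k → ℝ) (r : Fin d → ℝ)
    (F : Finset (Fin k) → ℝ) (hF : HF d F) :
    AntitoneOn (fun s : ℝ => ∫ y in {y : Fin d → ℝ | ∀ l, |y l| < r l},
      F (Finset.univ.filter (fun j => |a j ⬝ᵥ y - s * c j| < h j))) (Ici 0) := by
  by_cases hr : ∃ l, r l ≤ 0
  · obtain ⟨l, hl⟩ := hr
    have he : {y : Fin d → ℝ | ∀ l, |y l| < r l} = ∅ := by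
      ext y
      simp only [mem_setOf_eq, mem_empty_iff_false, iff_false, not_forall, not_lt]
      exact ⟨l, hl.trans (abs_nonneg _)⟩
    intro s _ t _ _
    simp only [he, Measure.restrict_empty, integral_zero_measure, le_refl]
  push Not at hr
  -- step polynomials
  have hP := fun j : Fin k => step_poly (Real.exp (-(max (h j) 0) ^ 2)) (Real.exp_pos _)
  choose P hPb hPl using hP
  have hR := fun l : Fin d => step_poly (Real.exp (-(max (r l) 0) ^ 2)) (Real.exp_pos _)
  choose R hRb hRl using hR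
  let G : ℕ → ℝ → (Fin d → ℝ) → ℝ := fun m s y =>
      (∑ A : Finset (Fin k), F A *
        ((∏ j ∈ A, (P j m).eval (Real.exp (-(a j ⬝ᵥ y - s * c j) ^ 2))) *
          ∏ j ∈ Aᶜ, (1 - (P j m).eval (Real.exp (-(a j ⬝ᵥ y - s * c j) ^ 2))))) *
      ∏ l, (R l m).eval (Real.exp (-(y l) ^ 2))
  have hanti : ∀ m, AntitoneOn (fun s : ℝ => ∫ y, G m s y) (Ici 0) := by
    intro m
    refine prod_anti a c F hF (fun j => P j m) (fun l => R l m) ?_ ?_ ?_ ?_ ?_ ?_
    · exact fun j x hx => (hPb j m x hx).1
    · exact fun j x hx => (hPb j m x hx).2.1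
    · exact fun j x hx => (hPb j m x hx).2.2.2
    · exact fun l x hx => (hRb l m x hx).1
    · exact fun l x hx => (hRb l m x hx).2.2.2
    · intro l
      have h0 := hRb l m 0 (left_mem_Icc.2 zero_le_one)
      rw [zero_div] at h0
      exact le_antisymm h0.2.2.1 h0.1
  have hmeas : ∀ m s, AEStronglyMeasurable (G m s) volume := by
    intro m s
    apply Continuous.aestronglyMeasurable
    have c1 : ∀ j, Continuous fun y : Fin d → ℝ =>
        (P j m).eval (Real.exp (-(a j ⬝ᵥ y - s * c j) ^ 2)) := by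
      intro j
      refine (P j m).continuous.comp (Real.continuous_exp.comp (Continuous.neg (Continuous.pow ?_ 2)))
      refine Continuous.sub ?_ continuous_const
      exact continuous_finsetSum _ fun i _ => continuous_const.mul (continuous_apply i)
    have c2 : ∀ l, Continuous fun y : Fin d → ℝ => (R l m).eval (Real.exp (-(y l) ^ 2)) := by
      intro l
      exact (R l m).continuous.comp (Real.continuous_exp.comp
        (Continuous.neg ((continuous_apply l).pow 2)))
    refine Continuous.mul ?_ (continuous_finsetProd _ fun l _ => c2 l)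
    refine continuous_finsetSum _ fun A _ => continuous_const.mul ?_
    exact (continuous_finsetProd _ fun j _ => c1 j).mul
      (continuous_finsetProd _ fun j _ => continuous_const.sub (c1 j))
  have hbd : ∀ m s, ∀ y, ‖G m s y‖ ≤ (∑ A : Finset (Fin k), |F A|) *
      ∏ l, (Real.exp (-(y l) ^ 2) / Real.exp (-(max (r l) 0) ^ 2)) := by
    intro m s y
    have q1 : ∀ j, 0 ≤ (P j m).eval (Real.exp (-(a j ⬝ᵥ y - s * c j) ^ 2)) ∧
        (P j m).eval (Real.exp (-(a j ⬝ᵥ y - s * c j) ^ 2)) ≤ 1 := fun j =>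
      ⟨(hPb j m _ (slabAnti_exp_mem _)).1, (hPb j m _ (slabAnti_exp_mem _)).2.1⟩
    have q2 : ∀ l, 0 ≤ (R l m).eval (Real.exp (-(y l) ^ 2)) ∧
        (R l m).eval (Real.exp (-(y l) ^ 2)) ≤
          Real.exp (-(y l) ^ 2) / Real.exp (-(max (r l) 0) ^ 2) := fun l =>
      ⟨(hRb l m _ (slabAnti_exp_mem _)).1, (hRb l m _ (slabAnti_exp_mem _)).2.2.1⟩
    simp only [G]
    rw [norm_mul]
    apply mul_le_mul _ _ (norm_nonneg _) (Finset.sum_nonneg fun _ _ => abs_nonneg _)
    · refine (norm_sum_le _ _).trans (Finset.sum_le_sum fun A _ => ?_)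
      rw [norm_mul, Real.norm_eq_abs]
      apply mul_le_of_le_one_right (abs_nonneg _)
      rw [norm_mul, Real.norm_eq_abs, Real.norm_eq_abs,
        abs_of_nonneg (Finset.prod_nonneg fun j _ => (q1 j).1),
        abs_of_nonneg (Finset.prod_nonneg fun j _ => sub_nonneg.2 (q1 j).2)]
      apply mul_le_one₀
      · exact Finset.prod_le_one (fun j _ => (q1 j).1) fun j _ => (q1 j).2
      · exact Finset.prod_nonneg fun j _ => sub_nonneg.2 (q1 j).2
      · exact Finset.prod_le_one (fun j _ => sub_nonneg.2 (q1 j).2)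
          fun j _ => by linarith [(q1 j).1]
    · rw [Real.norm_eq_abs, abs_of_nonneg (Finset.prod_nonneg fun l _ => (q2 l).1)]
      exact Finset.prod_le_prod (fun l _ => (q2 l).1) fun l _ => (q2 l).2
  have hlim : ∀ s, ∀ y, Tendsto (fun m => G m s y) atTop (𝓝
      (({y : Fin d → ℝ | ∀ l, |y l| < r l}.indicator (fun y : Fin d → ℝ =>
        F (Finset.univ.filter (fun j => |a j ⬝ᵥ y - s * c j| < h j)))) y)) := by
    intro s y
    have l1 : ∀ j, Tendsto (fun m => (P j m).eval (Real.exp (-(a j ⬝ᵥ y - s * c j) ^ 2))) atTop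
        (𝓝 (if |a j ⬝ᵥ y - s * c j| < h j then (1 : ℝ) else 0)) := by
      intro j
      have h1 := hPl j _ (slabAnti_exp_mem (a j ⬝ᵥ y - s * c j))
      by_cases hj : |a j ⬝ᵥ y - s * c j| < h j
      · rw [if_pos ((slabAnti_iff _ _).2 hj)] at h1
        rw [if_pos hj]
        exact h1
      · rw [if_neg (fun h' => hj ((slabAnti_iff _ _).1 h'))] at h1
        rw [if_neg hj]
        exact h1
    have l2 : ∀ l, Tendsto (fun m => (R l m).eval (Real.exp (-(y l) ^ 2))) atTop
        (𝓝 (if |y l| < r l then (1 : ℝ) else 0)) := by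
      intro l
      have h1 := hRl l _ (slabAnti_exp_mem (y l))
      by_cases hj : |y l| < r l
      · rw [if_pos ((slabAnti_iff _ _).2 hj)] at h1
        rw [if_pos hj]
        exact h1
      · rw [if_neg (fun h' => hj ((slabAnti_iff _ _).1 h'))] at h1
        rw [if_neg hj]
        exact h1
    have l3 : Tendsto (fun m => G m s y) atTop (𝓝
        ((∑ A : Finset (Fin k), F A *
          ((∏ j ∈ A, (if |a j ⬝ᵥ y - s * c j| < h j then (1 : ℝ) else 0)) *
            ∏ j ∈ Aᶜ, (1 - (if |a j ⬝ᵥ y - s * c j| < h j then (1 : ℝ) else 0)))) *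
        ∏ l, (if |y l| < r l then (1 : ℝ) else 0))) := by
      simp only [G]
      refine Tendsto.mul ?_ (tendsto_finsetProd _ fun l _ => l2 l)
      refine tendsto_finsetSum _ fun A _ => ?_
      refine Tendsto.const_mul _ ?_
      exact Tendsto.mul (tendsto_finsetProd _ fun j _ => l1 j)
        (tendsto_finsetProd _ fun j _ => (l1 j).const_sub 1)
    rw [slabAnti_sum F (fun j => |a j ⬝ᵥ y - s * c j| < h j)] at l3
    by_cases hy : y ∈ {y : Fin d → ℝ | ∀ l, |y l| < r l}
    · rw [indicator_of_mem hy]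
      have e1 : ∏ l, (if |y l| < r l then (1 : ℝ) else 0) = 1 :=
        Finset.prod_eq_one fun l _ => by rw [if_pos (hy l)]
      rw [e1, mul_one] at l3
      exact l3
    · rw [indicator_of_notMem hy]
      have hy' : ∃ l, ¬ |y l| < r l := by
        simpa only [mem_setOf_eq, not_forall] using hy
      obtain ⟨l, hl⟩ := hy'
      have e1 : ∏ l, (if |y l| < r l then (1 : ℝ) else 0) = 0 :=
        Finset.prod_eq_zero (Finset.mem_univ l) (by rw [if_neg hl])
      rw [e1, mul_zero] at l3
      exact l3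
  have hbox : MeasurableSet {y : Fin d → ℝ | ∀ l, |y l| < r l} := by
    apply IsOpen.measurableSet
    have : {y : Fin d → ℝ | ∀ l, |y l| < r l} = ⋂ l, {y : Fin d → ℝ | |y l| < r l} := by
      ext y
      simp
    rw [this]
    apply isOpen_iInter_of_finite
    intro l
    exact isOpen_lt (continuous_apply l).abs continuous_const
  have hconv : ∀ s, Tendsto (fun m => ∫ y, G m s y) atTop (𝓝
      (∫ y in {y : Fin d → ℝ | ∀ l, |y l| < r l},
        F (Finset.univ.filter (fun j => |a j ⬝ᵥ y - s * c j| < h j)))) := by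
    intro s
    rw [← integral_indicator hbox]
    refine tendsto_integral_of_dominated_convergence (fun y => (∑ A : Finset (Fin k), |F A|) *
      ∏ l, (Real.exp (-(y l) ^ 2) / Real.exp (-(max (r l) 0) ^ 2))) (fun m => hmeas m s) ?_
      (fun m => ae_of_all _ (hbd m s)) (ae_of_all _ (hlim s))
    exact (slabAnti_int _).const_mul _
  intro s hs t ht hst
  exact le_of_tendsto_of_tendsto' (hconv t) (hconv s) fun m => hanti m hs ht hst

end StarKP
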